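import Pool.Agent.Q139.Net.Fold2

/-!
Certificates for uniform rep-cubes.
-/

open Set

namespace Q139.Net

/-! ### connectivity -/

def adjB (a b : Cell) : Bool :=
  (a.1 == b.1 && (a.2 == b.2 + 1 || b.2 == a.2 + 1)) ||
  (a.2 == b.2 && (a.1 == b.1 + 1 || b.1 == a.1 + 1))

theorem adj_of_adjB {a b : Cell} (h : adjB a b = true) : Adj a b := by
  simp only [adjB, Bool.or_eq_true, Bool.and_eq_true, beq_iff_eq] at h
  rcases h with ⟨h1, h2 | h2⟩ | ⟨h1, h2 | h2⟩
  · left; refine ⟨h1, ?_⟩; rw [h2]; simp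
  · left; refine ⟨h1, ?_⟩; rw [h2, abs_sub_comm]; simp
  · right; refine ⟨h1, ?_⟩; rw [h2]; simp
  · right; refine ⟨h1, ?_⟩; rw [h2, abs_sub_comm]; simp

theorem Adj.symm {a b : Cell} (h : Adj a b) : Adj b a := by
  rcases h with ⟨h1, h2⟩ | ⟨h1, h2⟩
  · left; exact ⟨h1.symm, by rw [abs_sub_comm]; exact h2⟩
  · right; exact ⟨h1.symm, by rw [abs_sub_comm]; exact h2⟩

/-- each entry but the last is adjacent to a later one -/
def conn : List Cell → Bool
  | [] => true
  | c :: l => (l.isEmpty || l.any (adjB c)) && conn l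

theorem conn_aux : ∀ {l : List Cell} (r : Cell) , conn (l ++ [r]) = true →
    ∀ a ∈ l ++ [r], Relation.ReflTransGen
      (fun x y => Adj x y ∧ x ∈ (l ++ [r]).toFinset ∧ y ∈ (l ++ [r]).toFinset) a r := by
  intro l
  induction l with
  | nil =>
    intro r _ a ha
    simp only [List.nil_append, List.mem_singleton] at ha
    rw [ha]
  | cons c l ih =>
    intro r h a ha
    simp only [List.cons_append, conn, Bool.and_eq_true, Bool.or_eq_true] at h
    obtain ⟨h1, h2⟩ := h
    have hmono : ∀ a ∈ l ++ [r], Relation.ReflTransGen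
      (fun x y => Adj x y ∧ x ∈ (c :: l ++ [r]).toFinset ∧ y ∈ (c :: l ++ [r]).toFinset) a r := by
      intro a ha
      refine Relation.ReflTransGen.mono ?_ _ _ (ih r h2 a ha)
      rintro x y ⟨e1, e2, e3⟩
      refine ⟨e1, ?_, ?_⟩
      · simp only [List.mem_toFinset, List.cons_append, List.mem_cons] at e2 ⊢
        exact Or.inr e2
      · simp only [List.mem_toFinset, List.cons_append, List.mem_cons] at e3 ⊢
        exact Or.inr e3
    simp only [List.cons_append, List.mem_cons] at ha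
    rcases ha with rfl | ha
    · rcases h1 with h1 | h1
      · simp at h1
      · rw [List.any_eq_true] at h1
        obtain ⟨b, hb, hab⟩ := h1
        refine Relation.ReflTransGen.head ⟨adj_of_adjB hab, ?_, ?_⟩ (hmono b hb)
        · simp
        · simp only [List.mem_toFinset, List.cons_append, List.mem_cons]
          exact Or.inr hb
    · exact hmono a ha

theorem rtg_symm {α : Type*} {R : α → α → Prop} (hR : ∀ x y, R x y → R y x) {a b : α}
    (h : Relation.ReflTransGen R a b) : Relation.ReflTransGen R b a := by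
  induction h with
  | refl => exact Relation.ReflTransGen.refl
  | tail _ e ih => exact Relation.ReflTransGen.head (hR _ _ e) ih

theorem edgeConnected_of_conn {l : List Cell} (h0 : l ≠ []) (h : conn l = true) :
    EdgeConnected l.toFinset := by
  obtain ⟨r, l', rfl⟩ : ∃ r l', l = l' ++ [r] :=
    ⟨l.getLast h0, l.dropLast, (List.dropLast_append_getLast h0).symm⟩
  have hr := conn_aux r h
  refine ⟨⟨r, by simp⟩, fun a ha b hb => ?_⟩
  rw [List.mem_toFinset] at ha hb
  have h1 := hr a ha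
  have h2 := hr b hb
  have h3 : Relation.ReflTransGen
      (fun x y => Adj x y ∧ x ∈ (l' ++ [r]).toFinset ∧ y ∈ (l' ++ [r]).toFinset) r b := by
    exact rtg_symm (fun x y e => ⟨e.1.symm, e.2.2, e.2.1⟩) h2
  exact Relation.ReflTransGen.mono (fun x y e => ⟨e.1, e.2.2⟩) _ _ (h1.trans h3)

/-! ### boundary -/

def bedges (l : List Cell) : List ((ℤ × ℤ) × (ℤ × ℤ)) :=
  l.flatMap fun c =>
    (if l.contains (c.1, c.2 - 1) then [] else [((c.1, c.2), (c.1 + 1, c.2))]) ++
    (if l.contains (c.1 + 1, c.2) then [] else [((c.1 + 1, c.2), (c.1 + 1, c.2 + 1))]) ++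
    (if l.contains (c.1, c.2 + 1) then [] else [((c.1 + 1, c.2 + 1), (c.1, c.2 + 1))]) ++
    (if l.contains (c.1 - 1, c.2) then [] else [((c.1, c.2 + 1), (c.1, c.2))])

theorem mem_bedges {l : List Cell} {a b : ℤ × ℤ} :
    (a, b) ∈ bedges l ↔ BEdge l.toFinset a b := by
  simp only [bedges, List.mem_flatMap, List.mem_append, List.contains_eq_mem, decide_eq_true_eq]
  constructor
  · rintro ⟨c, hc, ((h | h) | h) | h⟩
    · split_ifs at h with h'
      · simp at h
      · simp only [List.mem_singleton, Prod.mk.injEq] at h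
        obtain ⟨rfl, rfl⟩ := h
        exact BEdge.bottom _ _ (by simpa using hc) (by simpa using h')
    · split_ifs at h with h'
      · simp at h
      · simp only [List.mem_singleton, Prod.mk.injEq] at h
        obtain ⟨rfl, rfl⟩ := h
        exact BEdge.right _ _ (by simpa using hc) (by simpa using h')
    · split_ifs at h with h'
      · simp at h
      · simp only [List.mem_singleton, Prod.mk.injEq] at h
        obtain ⟨rfl, rfl⟩ := h
        exact BEdge.top _ _ (by simpa using hc) (by simpa using h')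
    · split_ifs at h with h'
      · simp at h
      · simp only [List.mem_singleton, Prod.mk.injEq] at h
        obtain ⟨rfl, rfl⟩ := h
        exact BEdge.left _ _ (by simpa using hc) (by simpa using h')
  · intro h
    cases h with
    | bottom x y h1 h2 =>
      rw [List.mem_toFinset] at h1 h2
      refine ⟨(x, y), h1, Or.inl (Or.inl (Or.inl ?_))⟩
      rw [if_neg h2]; simp
    | right x y h1 h2 =>
      rw [List.mem_toFinset] at h1 h2
      refine ⟨(x, y), h1, Or.inl (Or.inl (Or.inr ?_))⟩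
      rw [if_neg h2]; simp
    | top x y h1 h2 =>
      rw [List.mem_toFinset] at h1 h2
      refine ⟨(x, y), h1, Or.inl (Or.inr ?_)⟩
      rw [if_neg h2]; simp
    | left x y h1 h2 =>
      rw [List.mem_toFinset] at h1 h2
      refine ⟨(x, y), h1, Or.inr ?_⟩
      rw [if_neg h2]; simp

def sbCheck (l : List Cell) (cyc : List (ℤ × ℤ)) : Bool :=
  decide cyc.Nodup && (bedges l).all (fun e => (cyc.zip (cyc.rotate 1)).contains e) &&
    (cyc.zip (cyc.rotate 1)).all (fun e => (bedges l).contains e)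

theorem simpleBoundary_of_check {l : List Cell} {cyc : List (ℤ × ℤ)} (h : sbCheck l cyc = true) :
    SimpleBoundary l.toFinset := by
  simp only [sbCheck, Bool.and_eq_true, decide_eq_true_eq, List.all_eq_true,
    List.contains_eq_mem] at h
  obtain ⟨⟨h1, h2⟩, h3⟩ := h
  refine ⟨cyc, h1, fun a b => ?_⟩
  rw [← mem_bedges]
  exact ⟨fun h => h2 _ h, fun h => h3 _ h⟩

/-! ### congruence -/

def trc (s1 s2 s3 : Bool) (t : Cell) (c : Cell) : Cell :=
  let c1 := if s1 then (c.2, c.1) else c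
  let c2 := if s2 then (-1 - c1.1, c1.2) else c1
  let c3 := if s3 then (c2.1, -1 - c2.2) else c2
  (c3.1 + t.1, c3.2 + t.2)

noncomputable def mkIso (F G : E2 → E2) (h1 : ∀ p, G (F p) = p) (h2 : ∀ p, F (G p) = p)
    (h3 : ∀ p q, dist (F p) (F q) = dist p q) : E2 ≃ᵢ E2 where
  toFun := F
  invFun := G
  left_inv := h1
  right_inv := h2
  isometry_toFun := Isometry.of_dist_eq h3

theorem exists_iso_swap : ∃ g : E2 ≃ᵢ E2, ∀ c : Cell, sq (c.2, c.1) = g '' sq c := by
  refine ⟨mkIso (fun p => WithLp.toLp 2 ![p 1, p 0]) (fun p => WithLp.toLp 2 ![p 1, p 0])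
    ?_ ?_ ?_, ?_⟩
  · intro p; ext i; fin_cases i <;> rfl
  · intro p; ext i; fin_cases i <;> rfl
  · intro p q
    rw [EuclideanSpace.dist_eq, EuclideanSpace.dist_eq]
    congr 1
    simp only [Fin.sum_univ_two, Matrix.cons_val_zero, Matrix.cons_val_one]
    ring
  · intro c
    ext p
    constructor
    · rintro ⟨h1, h2, h3, h4⟩
      exact ⟨WithLp.toLp 2 ![p 1, p 0], ⟨h3, h4, h1, h2⟩, by ext i; fin_cases i <;> rfl⟩
    · rintro ⟨q, ⟨h1, h2, h3, h4⟩, rfl⟩
      exact ⟨h3, h4, h1, h2⟩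

theorem exists_iso_fx : ∃ g : E2 ≃ᵢ E2, ∀ c : Cell, sq (-1 - c.1, c.2) = g '' sq c := by
  refine ⟨mkIso (fun p => WithLp.toLp 2 ![-p 0, p 1]) (fun p => WithLp.toLp 2 ![-p 0, p 1])
    ?_ ?_ ?_, ?_⟩
  · intro p; ext i; fin_cases i
    · show - - p 0 = p 0
      ring
    · rfl
  · intro p; ext i; fin_cases i
    · show - - p 0 = p 0
      ring
    · rfl
  · intro p q
    rw [EuclideanSpace.dist_eq, EuclideanSpace.dist_eq]
    congr 1
    simp only [Fin.sum_univ_two, Matrix.cons_val_zero, Matrix.cons_val_one, Real.dist_eq, sq_abs]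
    ring
  · intro c
    ext p
    constructor
    · rintro ⟨h1, h2, h3, h4⟩
      push_cast at h1 h2
      refine ⟨WithLp.toLp 2 ![-p 0, p 1], ⟨?_, ?_, h3, h4⟩, ?_⟩
      · show (c.1 : ℝ) ≤ - p 0
        linarith
      · show - p 0 ≤ (c.1 : ℝ) + 1
        linarith
      · ext i; fin_cases i
        · show - - p 0 = p 0
          ring
        · rfl
    · rintro ⟨q, ⟨h1, h2, h3, h4⟩, rfl⟩
      refine ⟨?_, ?_, h3, h4⟩
      · show ((-1 - c.1 : ℤ) : ℝ) ≤ - q 0
        push_cast; linarith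
      · show - q 0 ≤ ((-1 - c.1 : ℤ) : ℝ) + 1
        push_cast; linarith

theorem exists_iso_tr (t : Cell) : ∃ g : E2 ≃ᵢ E2, ∀ c : Cell,
    sq (c.1 + t.1, c.2 + t.2) = g '' sq c := by
  refine ⟨mkIso (fun p => WithLp.toLp 2 ![p 0 + t.1, p 1 + t.2])
    (fun p => WithLp.toLp 2 ![p 0 - t.1, p 1 - t.2]) ?_ ?_ ?_, ?_⟩
  · intro p; ext i; fin_cases i
    · show p 0 + t.1 - t.1 = p 0
      ring
    · show p 1 + t.2 - t.2 = p 1
      ring
  · intro p; ext i; fin_cases i
    · show p 0 - t.1 + t.1 = p 0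
      ring
    · show p 1 - t.2 + t.2 = p 1
      ring
  · intro p q
    rw [EuclideanSpace.dist_eq, EuclideanSpace.dist_eq]
    congr 1
    simp only [Fin.sum_univ_two, Matrix.cons_val_zero, Matrix.cons_val_one, Real.dist_eq, sq_abs]
    ring
  · intro c
    ext p
    constructor
    · rintro ⟨h1, h2, h3, h4⟩
      push_cast at h1 h2 h3 h4
      refine ⟨WithLp.toLp 2 ![p 0 - t.1, p 1 - t.2], ⟨?_, ?_, ?_, ?_⟩, ?_⟩
      · show (c.1 : ℝ) ≤ p 0 - t.1
        linarith
      · show p 0 - t.1 ≤ (c.1 : ℝ) + 1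
        linarith
      · show (c.2 : ℝ) ≤ p 1 - t.2
        linarith
      · show p 1 - t.2 ≤ (c.2 : ℝ) + 1
        linarith
      · ext i; fin_cases i
        · show p 0 - t.1 + t.1 = p 0
          ring
        · show p 1 - t.2 + t.2 = p 1
          ring
    · rintro ⟨q, ⟨h1, h2, h3, h4⟩, rfl⟩
      refine ⟨?_, ?_, ?_, ?_⟩
      · show ((c.1 + t.1 : ℤ) : ℝ) ≤ q 0 + t.1
        push_cast; linarith
      · show q 0 + t.1 ≤ ((c.1 + t.1 : ℤ) : ℝ) + 1
        push_cast; linarith
      · show ((c.2 + t.2 : ℤ) : ℝ) ≤ q 1 + t.2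
        push_cast; linarith
      · show q 1 + t.2 ≤ ((c.2 + t.2 : ℤ) : ℝ) + 1
        push_cast; linarith

theorem exists_iso_fy : ∃ g : E2 ≃ᵢ E2, ∀ c : Cell, sq (c.1, -1 - c.2) = g '' sq c := by
  obtain ⟨g, hg⟩ := exists_iso_swap
  obtain ⟨k, hk⟩ := exists_iso_fx
  refine ⟨(g.trans k).trans g, fun c => ?_⟩
  have h1 := hg c
  have h2 := hk (c.2, c.1)
  have h3 := hg (-1 - c.2, c.1)
  simp only at h1 h2 h3
  rw [h3, h2, h1]
  ext p; simp

theorem exists_iso_trc (s1 s2 s3 : Bool) (t : Cell) :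
    ∃ g : E2 ≃ᵢ E2, ∀ c : Cell, sq (trc s1 s2 s3 t c) = g '' sq c := by
  obtain ⟨g1, h1⟩ : ∃ g : E2 ≃ᵢ E2, ∀ c : Cell, sq (if s1 then (c.2, c.1) else c) = g '' sq c := by
    cases s1
    · exact ⟨IsometryEquiv.refl _, fun c => (Set.image_id _).symm⟩
    · simpa using exists_iso_swap
  obtain ⟨g2, h2⟩ : ∃ g : E2 ≃ᵢ E2, ∀ c : Cell,
      sq (if s2 then (-1 - c.1, c.2) else c) = g '' sq c := by
    cases s2
    · exact ⟨IsometryEquiv.refl _, fun c => (Set.image_id _).symm⟩
    · simpa using exists_iso_fx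
  obtain ⟨g3, h3⟩ : ∃ g : E2 ≃ᵢ E2, ∀ c : Cell,
      sq (if s3 then (c.1, -1 - c.2) else c) = g '' sq c := by
    cases s3
    · exact ⟨IsometryEquiv.refl _, fun c => (Set.image_id _).symm⟩
    · simpa using exists_iso_fy
  obtain ⟨g4, h4⟩ := exists_iso_tr t
  refine ⟨((g1.trans g2).trans g3).trans g4, fun c => ?_⟩
  rw [trc, h4, h3, h2, h1]
  ext p; simp

theorem region_image (P : Finset Cell) (σ : Cell → Cell) (g : E2 ≃ᵢ E2)
    (h : ∀ c, sq (σ c) = g '' sq c) : region (P.image σ) = g '' region P := by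
  simp only [region, image_iUnion₂]
  ext p
  simp only [mem_iUnion, Finset.mem_image]
  constructor
  · rintro ⟨_, ⟨c, hc, rfl⟩, hp⟩
    exact ⟨c, hc, by rw [← h]; exact hp⟩
  · rintro ⟨c, hc, hp⟩
    exact ⟨σ c, ⟨c, hc, rfl⟩, by rw [h]; exact hp⟩

/-! ### certificates -/

structure Piece where
  s1 : Bool
  s2 : Bool
  s3 : Bool
  t : Cell
  l : List Cell
  cyc : List (ℤ × ℤ)

structure Cert where
  N : List Cell
  Ncyc : List (ℤ × ℤ)
  Nfr : List Fr
  m : ℕ
  fr : List Fr
  cyc : List (ℤ × ℤ)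
  pieces : List Piece

def sameSet (a b : List Cell) : Bool := a.all (fun x => b.contains x) && b.all fun x => a.contains x

theorem toFinset_eq_of_sameSet {a b : List Cell} (h : sameSet a b = true) :
    a.toFinset = b.toFinset := by
  simp only [sameSet, Bool.and_eq_true, List.all_eq_true, List.contains_eq_mem,
    decide_eq_true_eq] at h
  ext x
  rw [List.mem_toFinset, List.mem_toFinset]
  exact ⟨h.1 x, h.2 x⟩

def Piece.check (N : List Cell) (p : Piece) : Bool :=
  !p.l.isEmpty && conn p.l && sbCheck p.l p.cyc && sameSet p.l (N.map (trc p.s1 p.s2 p.s3 p.t))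

def Cert.check (C : Cert) : Bool :=
  !C.N.isEmpty && conn C.N && sbCheck C.N C.Ncyc && sameSet (C.Nfr.map Fr.c) C.N &&
  foldCheck 1 C.Nfr && decide (2 ≤ C.m) && !C.fr.isEmpty && conn (C.fr.map Fr.c) &&
  sbCheck (C.fr.map Fr.c) C.cyc && foldCheck C.m C.fr && C.pieces.length == C.m * C.m &&
  C.pieces.all (Piece.check C.N) && decide (C.pieces.flatMap Piece.l).Nodup &&
  sameSet (C.fr.map Fr.c) (C.pieces.flatMap Piece.l)

theorem isPolyomino_of_check {l : List Cell} {cyc : List (ℤ × ℤ)} (h0 : (!l.isEmpty) = true)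
    (h1 : conn l = true) (h2 : sbCheck l cyc = true) : IsPolyomino l.toFinset :=
  ⟨edgeConnected_of_conn (by simpa using h0) h1, simpleBoundary_of_check h2⟩

/-- **Soundness of certificates.** -/
theorem Cert.sound (C : Cert) (h : C.check = true) :
    IsPolyomino C.N.toFinset ∧ IsNet (region C.N.toFinset) 1 ∧
      ∃ k P, IsUniformRepCube C.N.toFinset k P := by
  simp only [Cert.check, Bool.and_eq_true] at h
  obtain ⟨⟨⟨⟨⟨⟨⟨⟨⟨⟨⟨⟨⟨h1, h2⟩, h3⟩, h4⟩, h5⟩, h6⟩, h7⟩, h8⟩, h9⟩, h10⟩, h11⟩, h12⟩, h13⟩, h14⟩ := h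
  have hN : IsPolyomino C.N.toFinset := isPolyomino_of_check h1 h2 h3
  have hNn : IsNet (region C.N.toFinset) 1 := by
    have e := toFinset_eq_of_sameSet h4
    have := isNet_of_foldCheck one_pos h5
    rw [cells, e] at this
    simpa using this
  refine ⟨hN, hNn, C.m * C.m, (C.fr.map Fr.c).toFinset, ?_⟩
  have hm : 2 ≤ C.m := of_decide_eq_true h6
  have hlen : C.pieces.length = C.m * C.m := by simpa using h11
  rw [List.all_eq_true] at h12
  have hnd : (C.pieces.flatMap Piece.l).Nodup := of_decide_eq_true h13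
  refine ⟨by nlinarith, isPolyomino_of_check (by simpa using h7) h8 h9, ?_, ?_⟩
  · have := isNet_of_foldCheck (by omega) h10
    rw [cells] at this
    have e : √(((C.m * C.m : ℕ) : ℝ)) = C.m := by
      push_cast
      exact Real.sqrt_mul_self (Nat.cast_nonneg _)
    rw [e]
    exact this
  · refine ⟨fun i => ((C.pieces.get (Fin.cast hlen.symm i)).l).toFinset, ?_, ?_, ?_⟩
    · intro i j hij
      rw [List.nodup_flatMap] at hnd
      have hp := hnd.2
      have hne : (Fin.cast hlen.symm i) ≠ (Fin.cast hlen.symm j) := by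
        intro h; exact hij (Fin.cast_injective _ h)
      rw [Finset.disjoint_left]
      intro c hc hc'
      rw [List.mem_toFinset] at hc hc'
      rcases lt_or_gt_of_ne hne with h | h
      · exact (List.pairwise_iff_get.1 hp _ _ h) hc hc'
      · exact (List.pairwise_iff_get.1 hp _ _ h) hc' hc
    · rw [toFinset_eq_of_sameSet h14]
      ext c
      simp only [List.mem_toFinset, List.mem_flatMap, Finset.mem_biUnion, Finset.mem_univ,
        true_and]
      constructor
      · rintro ⟨p, hp, hc⟩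
        obtain ⟨i, hi⟩ := List.get_of_mem hp
        refine ⟨Fin.cast hlen i, ?_⟩
        have : Fin.cast hlen.symm (Fin.cast hlen i) = i := rfl
        rw [this, hi]; exact hc
      · rintro ⟨i, hc⟩
        exact ⟨_, List.get_mem _ _, hc⟩
    · intro i
      have hp := h12 _ (List.get_mem C.pieces (Fin.cast hlen.symm i))
      set p := C.pieces.get (Fin.cast hlen.symm i) with hpd
      simp only [Piece.check, Bool.and_eq_true] at hp
      obtain ⟨⟨⟨q1, q2⟩, q3⟩, q4⟩ := hp
      have e := toFinset_eq_of_sameSet q4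
      have e' : (C.N.map (trc p.s1 p.s2 p.s3 p.t)).toFinset =
          C.N.toFinset.image (trc p.s1 p.s2 p.s3 p.t) := by ext x; simp
      rw [e'] at e
      obtain ⟨g, hg⟩ := exists_iso_trc p.s1 p.s2 p.s3 p.t
      have hreg : region p.l.toFinset = g '' region C.N.toFinset := by
        rw [e]; exact region_image _ _ _ hg
      refine ⟨isPolyomino_of_check q1 q2 q3, ⟨g, hreg⟩, ?_⟩
      rw [hreg]
      exact hNn.image g

end Q139.Net
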