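import Pool.Agent.Q139.Net.Check

/-!
Certificates: a uniform rep-cube for each of the eleven edge nets.
-/

namespace Q139.Net

def cert0 : Cert where
  N := [(3, 1), (2, 1), (0, 2), (1, 1), (0, 1), (0, 0)]
  Ncyc := [(0, 0), (1, 0), (1, 1), (2, 1), (3, 1), (4, 1), (4, 2), (3, 2), (2, 2), (1, 2), (1, 3),
    (0, 3), (0, 2), (0, 1)]
  Nfr := [⟨(3, 1), (1, 0, 0), (0, 1, 0), (0, 0, 1)⟩,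
    ⟨(2, 1), (0, 0, 0), (1, 0, 0), (0, 0, 1)⟩,
    ⟨(0, 2), (1, 1, 1), (-1, 0, 0), (0, -1, 0)⟩,
    ⟨(1, 1), (0, 1, 0), (0, -1, 0), (0, 0, 1)⟩,
    ⟨(0, 1), (1, 1, 0), (-1, 0, 0), (0, 0, 1)⟩,
    ⟨(0, 0), (1, 0, 0), (-1, 0, 0), (0, 1, 0)⟩]
  m := 2
  fr := [⟨(1, 9), (2, 1, 1), (0, 0, 1), (0, -1, 0)⟩,
    ⟨(1, 8), (2, 2, 1), (0, 0, 1), (0, -1, 0)⟩,
    ⟨(7, 0), (0, 1, 2), (0, 1, 0), (0, 0, -1)⟩,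
    ⟨(0, 6), (0, 2, 0), (0, 0, 1), (1, 0, 0)⟩,
    ⟨(1, 7), (1, 2, 1), (0, 0, 1), (1, 0, 0)⟩,
    ⟨(7, 1), (0, 1, 1), (0, 1, 0), (0, 0, -1)⟩,
    ⟨(1, 6), (0, 2, 1), (0, 0, 1), (1, 0, 0)⟩,
    ⟨(2, 7), (1, 2, 2), (0, -1, 0), (1, 0, 0)⟩,
    ⟨(4, 7), (1, 0, 2), (0, 0, -1), (1, 0, 0)⟩,
    ⟨(7, 2), (0, 1, 0), (0, 1, 0), (1, 0, 0)⟩,
    ⟨(8, 3), (1, 2, 0), (0, 0, 1), (1, 0, 0)⟩,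
    ⟨(2, 6), (0, 2, 2), (0, -1, 0), (1, 0, 0)⟩,
    ⟨(3, 7), (1, 1, 2), (0, -1, 0), (1, 0, 0)⟩,
    ⟨(7, 3), (1, 1, 0), (0, 1, 0), (1, 0, 0)⟩,
    ⟨(3, 6), (0, 1, 2), (0, -1, 0), (1, 0, 0)⟩,
    ⟨(6, 3), (1, 0, 0), (0, 1, 0), (1, 0, 0)⟩,
    ⟨(7, 4), (2, 1, 0), (0, 1, 0), (0, 0, 1)⟩,
    ⟨(3, 5), (0, 1, 1), (0, -1, 0), (0, 0, 1)⟩,
    ⟨(6, 4), (2, 0, 0), (0, 1, 0), (0, 0, 1)⟩,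
    ⟨(3, 4), (0, 1, 0), (0, -1, 0), (0, 0, 1)⟩,
    ⟨(4, 5), (0, 0, 1), (1, 0, 0), (0, 0, 1)⟩,
    ⟨(5, 4), (1, 0, 0), (1, 0, 0), (0, 0, 1)⟩,
    ⟨(4, 4), (0, 0, 0), (1, 0, 0), (0, 0, 1)⟩,
    ⟨(4, 3), (0, 1, 0), (1, 0, 0), (0, -1, 0)⟩]
  cyc := [(0, 6), (1, 6), (2, 6), (3, 6), (3, 5), (3, 4), (4, 4), (4, 3), (5, 3), (5, 4), (6, 4),
    (6, 3), (7, 3), (7, 2), (7, 1), (7, 0), (8, 0), (8, 1), (8, 2), (8, 3), (9, 3), (9, 4), (8,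
    4), (8, 5), (7, 5), (6, 5), (5, 5), (5, 6), (4, 6), (4, 7), (5, 7), (5, 8), (4, 8), (3, 8),
    (2, 8), (2, 9), (2, 10), (1, 10), (1, 9), (1, 8), (1, 7), (0, 7)]
  pieces := [⟨false, false, false, (4, 3), [(7, 4), (6, 4), (4, 5), (5, 4), (4, 4), (4, 3)],
      [(4, 3), (5, 3), (5, 4), (6, 4), (7, 4), (8, 4), (8, 5), (7, 5), (6, 5), (5, 5), (5, 6), (4,
        6), (4, 5), (4, 4)]⟩,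
    ⟨true, false, true, (2, 8), [(3, 4), (3, 5), (3, 6), (4, 7), (3, 7), (2, 7)],
      [(2, 7), (3, 7), (3, 6), (3, 5), (3, 4), (4, 4), (4, 5), (4, 6), (4, 7), (5, 7), (5, 8), (4,
        8), (3, 8), (2, 8)]⟩,
    ⟨true, false, false, (0, 6), [(1, 9), (1, 8), (0, 6), (1, 7), (1, 6), (2, 6)],
      [(0, 6), (1, 6), (2, 6), (3, 6), (3, 7), (2, 7), (2, 8), (2, 9), (2, 10), (1, 10), (1, 9),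
        (1, 8), (1, 7), (0, 7)]⟩,
    ⟨true, false, true, (6, 4), [(7, 0), (7, 1), (7, 2), (8, 3), (7, 3), (6, 3)],
      [(6, 3), (7, 3), (7, 2), (7, 1), (7, 0), (8, 0), (8, 1), (8, 2), (8, 3), (9, 3), (9, 4), (8,
        4), (7, 4), (6, 4)]⟩]

def cert1 : Cert where
  N := [(1, 4), (1, 3), (1, 2), (0, 2), (0, 1), (0, 0)]
  Ncyc := [(0, 0), (1, 0), (1, 1), (1, 2), (2, 2), (2, 3), (2, 4), (2, 5), (1, 5), (1, 4), (1, 3),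
    (0, 3), (0, 2), (0, 1)]
  Nfr := [⟨(1, 4), (1, 0, 0), (0, 1, 0), (0, 0, 1)⟩,
    ⟨(1, 3), (0, 0, 0), (0, 1, 0), (1, 0, 0)⟩,
    ⟨(1, 2), (0, 0, 1), (0, 1, 0), (0, 0, -1)⟩,
    ⟨(0, 2), (1, 0, 1), (-1, 0, 0), (0, 0, -1)⟩,
    ⟨(0, 1), (1, 1, 1), (-1, 0, 0), (0, -1, 0)⟩,
    ⟨(0, 0), (1, 1, 0), (-1, 0, 0), (0, 0, 1)⟩]
  m := 4
  fr := [⟨(11, 14), (3, 1, 0), (-1, 0, 0), (0, 1, 0)⟩,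
    ⟨(10, 14), (4, 1, 0), (-1, 0, 0), (0, 1, 0)⟩,
    ⟨(11, 13), (3, 0, 0), (-1, 0, 0), (0, 1, 0)⟩,
    ⟨(12, 12), (2, 0, 1), (-1, 0, 0), (0, 0, -1)⟩,
    ⟨(10, 13), (4, 0, 0), (-1, 0, 0), (0, 1, 0)⟩,
    ⟨(11, 12), (3, 0, 1), (-1, 0, 0), (0, 0, -1)⟩,
    ⟨(12, 7), (2, 2, 4), (-1, 0, 0), (0, -1, 0)⟩,
    ⟨(12, 11), (2, 0, 2), (-1, 0, 0), (0, 0, -1)⟩,
    ⟨(10, 12), (4, 0, 1), (-1, 0, 0), (0, 0, -1)⟩,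
    ⟨(11, 11), (3, 0, 2), (-1, 0, 0), (0, 0, -1)⟩,
    ⟨(12, 8), (2, 1, 4), (-1, 0, 0), (0, -1, 0)⟩,
    ⟨(12, 10), (2, 0, 3), (-1, 0, 0), (0, 0, -1)⟩,
    ⟨(9, 12), (4, 1, 1), (0, -1, 0), (0, 0, -1)⟩,
    ⟨(10, 11), (4, 0, 2), (-1, 0, 0), (0, 0, -1)⟩,
    ⟨(11, 10), (3, 0, 3), (-1, 0, 0), (0, 0, -1)⟩,
    ⟨(12, 9), (2, 0, 4), (-1, 0, 0), (0, 0, -1)⟩,
    ⟨(9, 11), (4, 1, 2), (0, -1, 0), (0, 0, -1)⟩,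
    ⟨(10, 10), (4, 0, 3), (-1, 0, 0), (0, 0, -1)⟩,
    ⟨(11, 9), (3, 0, 4), (-1, 0, 0), (0, 0, -1)⟩,
    ⟨(7, 0), (1, 1, 4), (0, 1, 0), (-1, 0, 0)⟩,
    ⟨(9, 10), (4, 1, 3), (0, -1, 0), (0, 0, -1)⟩,
    ⟨(10, 9), (4, 0, 4), (-1, 0, 0), (0, 0, -1)⟩,
    ⟨(6, 0), (1, 0, 4), (0, 1, 0), (-1, 0, 0)⟩,
    ⟨(7, 11), (4, 3, 2), (0, -1, 0), (0, 0, -1)⟩,
    ⟨(9, 9), (4, 1, 4), (0, -1, 0), (0, 0, -1)⟩,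
    ⟨(0, 1), (2, 0, 0), (-1, 0, 0), (0, 1, 0)⟩,
    ⟨(4, 11), (4, 2, 2), (0, 0, 1), (0, -1, 0)⟩,
    ⟨(5, 0), (1, 0, 3), (0, 0, 1), (-1, 0, 0)⟩,
    ⟨(7, 10), (4, 3, 3), (0, -1, 0), (0, 0, -1)⟩,
    ⟨(8, 9), (4, 2, 4), (0, -1, 0), (0, 0, -1)⟩,
    ⟨(9, 8), (3, 1, 4), (0, -1, 0), (1, 0, 0)⟩,
    ⟨(2, 0), (1, 0, 0), (0, 0, 1), (-1, 0, 0)⟩,
    ⟨(1, 1), (1, 0, 0), (-1, 0, 0), (0, 1, 0)⟩,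
    ⟨(0, 2), (2, 1, 0), (-1, 0, 0), (0, 1, 0)⟩,
    ⟨(0, 10), (2, 3, 0), (1, 0, 0), (0, -1, 0)⟩,
    ⟨(3, 11), (4, 2, 1), (0, 0, 1), (0, -1, 0)⟩,
    ⟨(4, 0), (1, 0, 2), (0, 0, 1), (-1, 0, 0)⟩,
    ⟨(5, 1), (0, 0, 3), (0, 0, 1), (0, 1, 0)⟩,
    ⟨(7, 3), (1, 2, 4), (1, 0, 0), (0, 1, 0)⟩,
    ⟨(7, 9), (4, 3, 4), (0, -1, 0), (0, 0, -1)⟩,
    ⟨(8, 8), (3, 2, 4), (0, -1, 0), (1, 0, 0)⟩,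
    ⟨(9, 7), (2, 1, 4), (0, -1, 0), (1, 0, 0)⟩,
    ⟨(3, 0), (1, 0, 1), (0, 0, 1), (-1, 0, 0)⟩,
    ⟨(2, 1), (0, 0, 0), (0, 0, 1), (0, 1, 0)⟩,
    ⟨(1, 2), (1, 1, 0), (-1, 0, 0), (0, 1, 0)⟩,
    ⟨(0, 9), (2, 4, 0), (1, 0, 0), (0, -1, 0)⟩,
    ⟨(1, 10), (3, 3, 0), (1, 0, 0), (0, -1, 0)⟩,
    ⟨(2, 11), (4, 2, 0), (0, 0, 1), (0, -1, 0)⟩,
    ⟨(4, 1), (0, 0, 2), (0, 0, 1), (0, 1, 0)⟩,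
    ⟨(5, 2), (0, 1, 3), (0, 0, 1), (0, 1, 0)⟩,
    ⟨(6, 3), (0, 2, 4), (1, 0, 0), (0, 1, 0)⟩,
    ⟨(7, 4), (1, 3, 4), (1, 0, 0), (0, 1, 0)⟩,
    ⟨(7, 8), (3, 3, 4), (0, -1, 0), (1, 0, 0)⟩,
    ⟨(8, 7), (2, 2, 4), (0, -1, 0), (1, 0, 0)⟩,
    ⟨(3, 1), (0, 0, 1), (0, 0, 1), (0, 1, 0)⟩,
    ⟨(2, 2), (0, 1, 0), (0, 0, 1), (0, 1, 0)⟩,
    ⟨(1, 9), (3, 4, 0), (1, 0, 0), (0, -1, 0)⟩,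
    ⟨(2, 10), (4, 3, 0), (0, 0, 1), (0, -1, 0)⟩,
    ⟨(4, 2), (0, 1, 2), (0, 0, 1), (0, 1, 0)⟩,
    ⟨(5, 3), (0, 2, 3), (0, 0, 1), (0, 1, 0)⟩,
    ⟨(6, 4), (0, 3, 4), (1, 0, 0), (0, 1, 0)⟩,
    ⟨(5, 9), (4, 4, 3), (0, 0, 1), (0, -1, 0)⟩,
    ⟨(6, 8), (3, 4, 4), (0, -1, 0), (1, 0, 0)⟩,
    ⟨(7, 7), (2, 3, 4), (0, -1, 0), (1, 0, 0)⟩,
    ⟨(3, 2), (0, 1, 1), (0, 0, 1), (0, 1, 0)⟩,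
    ⟨(2, 3), (0, 2, 0), (0, 0, 1), (0, 1, 0)⟩,
    ⟨(0, 5), (0, 2, 0), (0, 1, 0), (1, 0, 0)⟩,
    ⟨(2, 9), (4, 4, 0), (0, 0, 1), (0, -1, 0)⟩,
    ⟨(4, 3), (0, 2, 2), (0, 0, 1), (0, 1, 0)⟩,
    ⟨(4, 9), (4, 4, 2), (0, 0, 1), (0, -1, 0)⟩,
    ⟨(5, 4), (0, 3, 3), (0, 0, 1), (0, 1, 0)⟩,
    ⟨(5, 8), (3, 4, 3), (0, 0, 1), (1, 0, 0)⟩,
    ⟨(6, 7), (2, 4, 4), (0, -1, 0), (1, 0, 0)⟩,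
    ⟨(3, 3), (0, 2, 1), (0, 0, 1), (0, 1, 0)⟩,
    ⟨(2, 4), (0, 3, 0), (0, 0, 1), (0, 1, 0)⟩,
    ⟨(1, 5), (0, 3, 0), (0, 1, 0), (1, 0, 0)⟩,
    ⟨(0, 6), (1, 2, 0), (0, 1, 0), (1, 0, 0)⟩,
    ⟨(2, 8), (3, 4, 0), (0, 0, 1), (1, 0, 0)⟩,
    ⟨(3, 9), (4, 4, 1), (0, 0, 1), (0, -1, 0)⟩,
    ⟨(4, 4), (0, 3, 2), (0, 0, 1), (0, 1, 0)⟩,
    ⟨(4, 8), (3, 4, 2), (0, 0, 1), (1, 0, 0)⟩,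
    ⟨(5, 5), (0, 4, 3), (0, 0, 1), (1, 0, 0)⟩,
    ⟨(5, 7), (2, 4, 3), (0, 0, 1), (1, 0, 0)⟩,
    ⟨(3, 4), (0, 3, 1), (0, 0, 1), (0, 1, 0)⟩,
    ⟨(2, 5), (0, 4, 0), (0, 0, 1), (1, 0, 0)⟩,
    ⟨(1, 6), (1, 3, 0), (0, 1, 0), (1, 0, 0)⟩,
    ⟨(2, 7), (2, 4, 0), (0, 0, 1), (1, 0, 0)⟩,
    ⟨(3, 8), (3, 4, 1), (0, 0, 1), (1, 0, 0)⟩,
    ⟨(4, 5), (0, 4, 2), (0, 0, 1), (1, 0, 0)⟩,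
    ⟨(4, 7), (2, 4, 2), (0, 0, 1), (1, 0, 0)⟩,
    ⟨(5, 6), (1, 4, 3), (0, 0, 1), (1, 0, 0)⟩,
    ⟨(3, 5), (0, 4, 1), (0, 0, 1), (1, 0, 0)⟩,
    ⟨(2, 6), (1, 4, 0), (0, 0, 1), (1, 0, 0)⟩,
    ⟨(3, 7), (2, 4, 1), (0, 0, 1), (1, 0, 0)⟩,
    ⟨(4, 6), (1, 4, 2), (0, 0, 1), (1, 0, 0)⟩,
    ⟨(3, 6), (1, 4, 1), (0, 0, 1), (1, 0, 0)⟩]
  cyc := [(0, 1), (1, 1), (2, 1), (2, 0), (3, 0), (4, 0), (5, 0), (6, 0), (7, 0), (8, 0), (8, 1),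
    (7, 1), (6, 1), (6, 2), (6, 3), (7, 3), (8, 3), (8, 4), (8, 5), (7, 5), (6, 5), (6, 6), (6,
    7), (7, 7), (8, 7), (9, 7), (10, 7), (10, 8), (10, 9), (11, 9), (12, 9), (12, 8), (12, 7),
    (13, 7), (13, 8), (13, 9), (13, 10), (13, 11), (13, 12), (13, 13), (12, 13), (12, 14), (12,
    15), (11, 15), (10, 15), (10, 14), (10, 13), (9, 13), (9, 12), (9, 11), (9, 10), (8, 10), (8,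
    11), (8, 12), (7, 12), (7, 11), (7, 10), (7, 9), (6, 9), (6, 10), (5, 10), (4, 10), (3, 10),
    (3, 11), (4, 11), (5, 11), (5, 12), (4, 12), (3, 12), (2, 12), (2, 11), (1, 11), (0, 11), (0,
    10), (0, 9), (1, 9), (2, 9), (2, 8), (2, 7), (1, 7), (0, 7), (0, 6), (0, 5), (1, 5), (2, 5),
    (2, 4), (2, 3), (1, 3), (0, 3), (0, 2)]
  pieces := [⟨true, false, false, (3, 6), [(7, 7), (6, 7), (5, 7), (5, 6), (4, 6), (3, 6)],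
      [(3, 6), (4, 6), (5, 6), (6, 6), (6, 7), (7, 7), (8, 7), (8, 8), (7, 8), (6, 8), (5, 8), (5,
        7), (4, 7), (3, 7)]⟩,
    ⟨true, false, false, (0, 6), [(0, 6), (1, 6), (2, 6), (2, 7), (3, 7), (4, 7)],
      [(0, 6), (1, 6), (2, 6), (3, 6), (3, 7), (4, 7), (5, 7), (5, 8), (4, 8), (3, 8), (2, 8), (2,
        7), (1, 7), (0, 7)]⟩,
    ⟨true, false, true, (3, 10), [(7, 8), (6, 8), (5, 8), (5, 9), (4, 9), (3, 9)],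
      [(3, 9), (4, 9), (5, 9), (5, 8), (6, 8), (7, 8), (8, 8), (8, 9), (7, 9), (6, 9), (6, 10),
        (5, 10), (4, 10), (3, 10)]⟩,
    ⟨false, false, true, (7, 12), [(8, 7), (8, 8), (8, 9), (7, 9), (7, 10), (7, 11)],
      [(7, 9), (8, 9), (8, 8), (8, 7), (9, 7), (9, 8), (9, 9), (9, 10), (8, 10), (8, 11), (8, 12),
        (7, 12), (7, 11), (7, 10)]⟩,
    ⟨true, false, true, (0, 10), [(0, 9), (1, 9), (2, 9), (2, 8), (3, 8), (4, 8)],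
      [(0, 9), (1, 9), (2, 9), (2, 8), (3, 8), (4, 8), (5, 8), (5, 9), (4, 9), (3, 9), (3, 10),
        (2, 10), (1, 10), (0, 10)]⟩,
    ⟨false, false, false, (9, 7), [(9, 7), (9, 8), (9, 9), (10, 9), (10, 10), (10, 11)],
      [(9, 7), (10, 7), (10, 8), (10, 9), (11, 9), (11, 10), (11, 11), (11, 12), (10, 12), (10,
        11), (10, 10), (9, 10), (9, 9), (9, 8)]⟩,
    ⟨true, false, false, (0, 10), [(0, 10), (1, 10), (2, 10), (2, 11), (3, 11), (4, 11)],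
      [(0, 10), (1, 10), (2, 10), (3, 10), (3, 11), (4, 11), (5, 11), (5, 12), (4, 12), (3, 12),
        (2, 12), (2, 11), (1, 11), (0, 11)]⟩,
    ⟨false, false, false, (9, 10), [(10, 14), (10, 13), (10, 12), (9, 12), (9, 11), (9, 10)],
      [(9, 10), (10, 10), (10, 11), (10, 12), (11, 12), (11, 13), (11, 14), (11, 15), (10, 15),
        (10, 14), (10, 13), (9, 13), (9, 12), (9, 11)]⟩,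
    ⟨true, false, true, (0, 6), [(0, 5), (1, 5), (2, 5), (2, 4), (3, 4), (4, 4)],
      [(0, 5), (1, 5), (2, 5), (2, 4), (3, 4), (4, 4), (5, 4), (5, 5), (4, 5), (3, 5), (3, 6), (2,
        6), (1, 6), (0, 6)]⟩,
    ⟨true, false, false, (0, 2), [(0, 2), (1, 2), (2, 2), (2, 3), (3, 3), (4, 3)],
      [(0, 2), (1, 2), (2, 2), (3, 2), (3, 3), (4, 3), (5, 3), (5, 4), (4, 4), (3, 4), (2, 4), (2,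
        3), (1, 3), (0, 3)]⟩,
    ⟨true, false, true, (3, 6), [(7, 4), (6, 4), (5, 4), (5, 5), (4, 5), (3, 5)],
      [(3, 5), (4, 5), (5, 5), (5, 4), (6, 4), (7, 4), (8, 4), (8, 5), (7, 5), (6, 5), (6, 6), (5,
        6), (4, 6), (3, 6)]⟩,
    ⟨false, false, true, (11, 12), [(12, 7), (12, 8), (12, 9), (11, 9), (11, 10), (11, 11)],
      [(11, 9), (12, 9), (12, 8), (12, 7), (13, 7), (13, 8), (13, 9), (13, 10), (12, 10), (12,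
        11), (12, 12), (11, 12), (11, 11), (11, 10)]⟩,
    ⟨true, false, true, (0, 2), [(0, 1), (1, 1), (2, 1), (2, 0), (3, 0), (4, 0)],
      [(0, 1), (1, 1), (2, 1), (2, 0), (3, 0), (4, 0), (5, 0), (5, 1), (4, 1), (3, 1), (3, 2), (2,
        2), (1, 2), (0, 2)]⟩,
    ⟨false, false, true, (11, 15), [(11, 14), (11, 13), (11, 12), (12, 12), (12, 11), (12, 10)],
      [(11, 12), (12, 12), (12, 11), (12, 10), (13, 10), (13, 11), (13, 12), (13, 13), (12, 13),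
        (12, 14), (12, 15), (11, 15), (11, 14), (11, 13)]⟩,
    ⟨true, false, false, (3, 2), [(7, 3), (6, 3), (5, 3), (5, 2), (4, 2), (3, 2)],
      [(3, 2), (4, 2), (5, 2), (6, 2), (6, 3), (7, 3), (8, 3), (8, 4), (7, 4), (6, 4), (5, 4), (5,
        3), (4, 3), (3, 3)]⟩,
    ⟨true, false, true, (3, 2), [(7, 0), (6, 0), (5, 0), (5, 1), (4, 1), (3, 1)],
      [(3, 1), (4, 1), (5, 1), (5, 0), (6, 0), (7, 0), (8, 0), (8, 1), (7, 1), (6, 1), (6, 2), (5,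
        2), (4, 2), (3, 2)]⟩]

def cert2 : Cert where
  N := [(1, 3), (1, 2), (2, 1), (1, 1), (0, 1), (0, 0)]
  Ncyc := [(0, 0), (1, 0), (1, 1), (2, 1), (3, 1), (3, 2), (2, 2), (2, 3), (2, 4), (1, 4), (1, 3),
    (1, 2), (0, 2), (0, 1)]
  Nfr := [⟨(1, 3), (1, 0, 0), (0, 1, 0), (0, 0, 1)⟩,
    ⟨(1, 2), (0, 0, 0), (0, 1, 0), (1, 0, 0)⟩,
    ⟨(2, 1), (0, 1, 1), (1, 0, 0), (0, 0, -1)⟩,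
    ⟨(1, 1), (0, 0, 1), (0, 1, 0), (0, 0, -1)⟩,
    ⟨(0, 1), (1, 0, 1), (-1, 0, 0), (0, 0, -1)⟩,
    ⟨(0, 0), (1, 1, 1), (-1, 0, 0), (0, -1, 0)⟩]
  m := 2
  fr := [⟨(1, 0), (0, 2, 0), (1, 0, 0), (0, -1, 0)⟩,
    ⟨(4, 9), (0, 1, 1), (0, 0, -1), (0, -1, 0)⟩,
    ⟨(3, 1), (2, 1, 0), (0, 0, 1), (0, -1, 0)⟩,
    ⟨(1, 1), (0, 1, 0), (1, 0, 0), (0, -1, 0)⟩,
    ⟨(2, 8), (1, 2, 2), (-1, 0, 0), (0, -1, 0)⟩,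
    ⟨(4, 8), (0, 2, 1), (0, 0, -1), (0, -1, 0)⟩,
    ⟨(2, 1), (1, 1, 0), (1, 0, 0), (0, -1, 0)⟩,
    ⟨(1, 2), (0, 0, 0), (1, 0, 0), (0, 0, 1)⟩,
    ⟨(3, 8), (0, 2, 2), (0, 0, -1), (0, -1, 0)⟩,
    ⟨(4, 7), (1, 2, 1), (0, 0, -1), (-1, 0, 0)⟩,
    ⟨(2, 2), (1, 0, 0), (1, 0, 0), (0, 0, 1)⟩,
    ⟨(1, 3), (0, 0, 1), (1, 0, 0), (0, 0, 1)⟩,
    ⟨(0, 4), (0, 0, 1), (0, 0, 1), (0, 1, 0)⟩,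
    ⟨(3, 7), (1, 2, 2), (0, 0, -1), (-1, 0, 0)⟩,
    ⟨(4, 6), (2, 2, 1), (0, 0, -1), (-1, 0, 0)⟩,
    ⟨(5, 5), (2, 1, 0), (-1, 0, 0), (0, 1, 0)⟩,
    ⟨(2, 3), (1, 0, 1), (1, 0, 0), (0, 0, 1)⟩,
    ⟨(1, 4), (0, 0, 2), (1, 0, 0), (0, 1, 0)⟩,
    ⟨(3, 4), (2, 0, 2), (0, 0, -1), (0, 1, 0)⟩,
    ⟨(3, 6), (2, 2, 2), (0, 0, -1), (-1, 0, 0)⟩,
    ⟨(4, 5), (2, 1, 1), (0, 0, -1), (0, 1, 0)⟩,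
    ⟨(2, 4), (1, 0, 2), (1, 0, 0), (0, 1, 0)⟩,
    ⟨(3, 5), (2, 1, 2), (0, 0, -1), (0, 1, 0)⟩,
    ⟨(2, 5), (1, 1, 2), (1, 0, 0), (0, 1, 0)⟩]
  cyc := [(0, 4), (1, 4), (1, 3), (1, 2), (1, 1), (1, 0), (2, 0), (2, 1), (3, 1), (4, 1), (4, 2),
    (3, 2), (3, 3), (3, 4), (4, 4), (4, 5), (5, 5), (6, 5), (6, 6), (5, 6), (5, 7), (5, 8), (5,
    9), (5, 10), (4, 10), (4, 9), (3, 9), (2, 9), (2, 8), (3, 8), (3, 7), (3, 6), (2, 6), (2, 5),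
    (1, 5), (0, 5)]
  pieces := [⟨false, true, true, (3, 6), [(1, 2), (1, 3), (0, 4), (1, 4), (2, 4), (2, 5)],
      [(0, 4), (1, 4), (1, 3), (1, 2), (2, 2), (2, 3), (2, 4), (3, 4), (3, 5), (3, 6), (2, 6), (2,
        5), (1, 5), (0, 5)]⟩,
    ⟨false, false, false, (3, 4), [(4, 7), (4, 6), (5, 5), (4, 5), (3, 5), (3, 4)],
      [(3, 4), (4, 4), (4, 5), (5, 5), (6, 5), (6, 6), (5, 6), (5, 7), (5, 8), (4, 8), (4, 7), (4,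
        6), (3, 6), (3, 5)]⟩,
    ⟨false, true, true, (5, 10), [(3, 6), (3, 7), (2, 8), (3, 8), (4, 8), (4, 9)],
      [(2, 8), (3, 8), (3, 7), (3, 6), (4, 6), (4, 7), (4, 8), (5, 8), (5, 9), (5, 10), (4, 10),
        (4, 9), (3, 9), (2, 9)]⟩,
    ⟨false, false, false, (1, 0), [(2, 3), (2, 2), (3, 1), (2, 1), (1, 1), (1, 0)],
      [(1, 0), (2, 0), (2, 1), (3, 1), (4, 1), (4, 2), (3, 2), (3, 3), (3, 4), (2, 4), (2, 3), (2,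
        2), (1, 2), (1, 1)]⟩]

def cert3 : Cert where
  N := [(1, 3), (2, 2), (1, 2), (1, 1), (0, 1), (0, 0)]
  Ncyc := [(0, 0), (1, 0), (1, 1), (2, 1), (2, 2), (3, 2), (3, 3), (2, 3), (2, 4), (1, 4), (1, 3),
    (1, 2), (0, 2), (0, 1)]
  Nfr := [⟨(1, 3), (1, 0, 0), (0, 1, 0), (0, 0, 1)⟩,
    ⟨(2, 2), (0, 1, 0), (0, 0, 1), (1, 0, 0)⟩,
    ⟨(1, 2), (0, 0, 0), (0, 1, 0), (1, 0, 0)⟩,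
    ⟨(1, 1), (0, 0, 1), (0, 1, 0), (0, 0, -1)⟩,
    ⟨(0, 1), (1, 0, 1), (-1, 0, 0), (0, 0, -1)⟩,
    ⟨(0, 0), (1, 1, 1), (-1, 0, 0), (0, -1, 0)⟩]
  m := 2
  fr := [⟨(3, 0), (0, 1, 2), (0, 0, -1), (0, -1, 0)⟩,
    ⟨(2, 1), (0, 1, 2), (0, -1, 0), (1, 0, 0)⟩,
    ⟨(3, 1), (0, 0, 2), (0, 0, -1), (1, 0, 0)⟩,
    ⟨(0, 4), (0, 1, 1), (0, 0, 1), (0, 1, 0)⟩,
    ⟨(1, 5), (0, 2, 2), (1, 0, 0), (0, 0, -1)⟩,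
    ⟨(6, 2), (1, 0, 1), (-1, 0, 0), (0, 0, -1)⟩,
    ⟨(7, 3), (0, 0, 0), (0, 0, 1), (0, 1, 0)⟩,
    ⟨(3, 2), (1, 0, 2), (0, 0, -1), (1, 0, 0)⟩,
    ⟨(2, 3), (1, 0, 2), (1, 0, 0), (0, 1, 0)⟩,
    ⟨(1, 4), (0, 1, 2), (1, 0, 0), (0, 1, 0)⟩,
    ⟨(4, 7), (0, 2, 1), (0, 0, -1), (0, -1, 0)⟩,
    ⟨(5, 6), (1, 2, 0), (0, -1, 0), (-1, 0, 0)⟩,
    ⟨(6, 3), (1, 0, 0), (-1, 0, 0), (0, 1, 0)⟩,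
    ⟨(4, 2), (1, 0, 1), (0, 0, -1), (1, 0, 0)⟩,
    ⟨(3, 3), (2, 0, 2), (0, 0, -1), (0, 1, 0)⟩,
    ⟨(2, 4), (1, 1, 2), (1, 0, 0), (0, 1, 0)⟩,
    ⟨(3, 5), (2, 2, 2), (0, 0, -1), (-1, 0, 0)⟩,
    ⟨(4, 6), (1, 2, 1), (0, 0, -1), (-1, 0, 0)⟩,
    ⟨(5, 3), (2, 0, 0), (-1, 0, 0), (0, 1, 0)⟩,
    ⟨(4, 3), (2, 0, 1), (0, 0, -1), (0, 1, 0)⟩,
    ⟨(3, 4), (2, 1, 2), (0, 0, -1), (0, 1, 0)⟩,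
    ⟨(4, 5), (2, 2, 1), (0, 0, -1), (-1, 0, 0)⟩,
    ⟨(5, 4), (2, 1, 0), (-1, 0, 0), (0, 1, 0)⟩,
    ⟨(4, 4), (2, 1, 1), (0, 0, -1), (0, 1, 0)⟩]
  cyc := [(0, 4), (1, 4), (2, 4), (2, 3), (3, 3), (3, 2), (2, 2), (2, 1), (3, 1), (3, 0), (4, 0),
    (4, 1), (4, 2), (5, 2), (5, 3), (6, 3), (6, 2), (7, 2), (7, 3), (8, 3), (8, 4), (7, 4), (6,
    4), (6, 5), (5, 5), (5, 6), (6, 6), (6, 7), (5, 7), (5, 8), (4, 8), (4, 7), (4, 6), (3, 6),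
    (3, 5), (2, 5), (2, 6), (1, 6), (1, 5), (0, 5)]
  pieces := [⟨true, false, true, (4, 5), [(6, 2), (7, 3), (6, 3), (5, 3), (5, 4), (4, 4)],
      [(4, 4), (5, 4), (5, 3), (6, 3), (6, 2), (7, 2), (7, 3), (8, 3), (8, 4), (7, 4), (6, 4), (6,
        5), (5, 5), (4, 5)]⟩,
    ⟨false, true, true, (5, 4), [(3, 0), (2, 1), (3, 1), (3, 2), (4, 2), (4, 3)],
      [(2, 1), (3, 1), (3, 0), (4, 0), (4, 1), (4, 2), (5, 2), (5, 3), (5, 4), (4, 4), (4, 3), (3,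
        3), (3, 2), (2, 2)]⟩,
    ⟨true, true, false, (4, 3), [(0, 4), (1, 5), (1, 4), (2, 4), (2, 3), (3, 3)],
      [(0, 4), (1, 4), (2, 4), (2, 3), (3, 3), (4, 3), (4, 4), (3, 4), (3, 5), (2, 5), (2, 6), (1,
        6), (1, 5), (0, 5)]⟩,
    ⟨false, false, false, (3, 4), [(4, 7), (5, 6), (4, 6), (4, 5), (3, 5), (3, 4)],
      [(3, 4), (4, 4), (4, 5), (5, 5), (5, 6), (6, 6), (6, 7), (5, 7), (5, 8), (4, 8), (4, 7), (4,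
        6), (3, 6), (3, 5)]⟩]

def cert4 : Cert where
  N := [(2, 3), (1, 3), (1, 2), (1, 1), (0, 1), (0, 0)]
  Ncyc := [(0, 0), (1, 0), (1, 1), (2, 1), (2, 2), (2, 3), (3, 3), (3, 4), (2, 4), (1, 4), (1, 3),
    (1, 2), (0, 2), (0, 1)]
  Nfr := [⟨(2, 3), (1, 0, 0), (0, 1, 0), (0, 0, 1)⟩,
    ⟨(1, 3), (0, 0, 0), (1, 0, 0), (0, 0, 1)⟩,
    ⟨(1, 2), (0, 1, 0), (1, 0, 0), (0, -1, 0)⟩,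
    ⟨(1, 1), (0, 1, 1), (1, 0, 0), (0, 0, -1)⟩,
    ⟨(0, 1), (0, 0, 1), (0, 1, 0), (0, 0, -1)⟩,
    ⟨(0, 0), (1, 0, 1), (0, 1, 0), (-1, 0, 0)⟩]
  m := 2
  fr := [⟨(0, 9), (0, 1, 0), (0, 1, 0), (1, 0, 0)⟩,
    ⟨(0, 8), (0, 1, 1), (0, 1, 0), (0, 0, -1)⟩,
    ⟨(1, 8), (0, 2, 1), (1, 0, 0), (0, 0, -1)⟩,
    ⟨(2, 8), (1, 2, 1), (1, 0, 0), (0, 0, -1)⟩,
    ⟨(2, 7), (1, 2, 2), (1, 0, 0), (0, 0, -1)⟩,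
    ⟨(3, 7), (2, 2, 2), (0, -1, 0), (0, 0, -1)⟩,
    ⟨(3, 0), (2, 2, 1), (0, -1, 0), (0, 0, -1)⟩,
    ⟨(3, 6), (1, 2, 2), (0, -1, 0), (1, 0, 0)⟩,
    ⟨(4, 7), (2, 1, 2), (0, -1, 0), (0, 0, -1)⟩,
    ⟨(3, 1), (2, 2, 0), (0, -1, 0), (-1, 0, 0)⟩,
    ⟨(2, 4), (1, 2, 1), (-1, 0, 0), (0, 0, 1)⟩,
    ⟨(3, 5), (0, 2, 2), (0, -1, 0), (1, 0, 0)⟩,
    ⟨(4, 6), (1, 1, 2), (0, -1, 0), (1, 0, 0)⟩,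
    ⟨(4, 1), (2, 1, 0), (0, -1, 0), (-1, 0, 0)⟩,
    ⟨(3, 4), (0, 2, 1), (0, -1, 0), (0, 0, 1)⟩,
    ⟨(4, 5), (0, 1, 2), (0, -1, 0), (1, 0, 0)⟩,
    ⟨(4, 2), (1, 1, 0), (0, -1, 0), (-1, 0, 0)⟩,
    ⟨(4, 4), (0, 1, 1), (0, -1, 0), (0, 0, 1)⟩,
    ⟨(4, 3), (0, 1, 0), (0, -1, 0), (0, 0, 1)⟩,
    ⟨(5, 4), (0, 0, 1), (1, 0, 0), (0, 0, 1)⟩,
    ⟨(5, 3), (0, 0, 0), (1, 0, 0), (0, 0, 1)⟩,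
    ⟨(6, 4), (1, 0, 1), (1, 0, 0), (0, 0, 1)⟩,
    ⟨(6, 3), (1, 0, 0), (1, 0, 0), (0, 0, 1)⟩,
    ⟨(7, 3), (2, 0, 0), (0, 1, 0), (0, 0, 1)⟩]
  cyc := [(0, 8), (1, 8), (2, 8), (2, 7), (3, 7), (3, 6), (3, 5), (2, 5), (2, 4), (3, 4), (4, 4),
    (4, 3), (4, 2), (3, 2), (3, 1), (3, 0), (4, 0), (4, 1), (5, 1), (5, 2), (5, 3), (6, 3), (7,
    3), (8, 3), (8, 4), (7, 4), (7, 5), (6, 5), (5, 5), (5, 6), (5, 7), (5, 8), (4, 8), (3, 8),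
    (3, 9), (2, 9), (1, 9), (1, 10), (0, 10), (0, 9)]
  pieces := [⟨true, true, false, (8, 3), [(4, 5), (4, 4), (5, 4), (6, 4), (6, 3), (7, 3)],
      [(4, 4), (5, 4), (6, 4), (6, 3), (7, 3), (8, 3), (8, 4), (7, 4), (7, 5), (6, 5), (5, 5), (5,
        6), (4, 6), (4, 5)]⟩,
    ⟨false, false, false, (3, 0), [(5, 3), (4, 3), (4, 2), (4, 1), (3, 1), (3, 0)],
      [(3, 0), (4, 0), (4, 1), (5, 1), (5, 2), (5, 3), (6, 3), (6, 4), (5, 4), (4, 4), (4, 3), (4,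
        2), (3, 2), (3, 1)]⟩,
    ⟨false, true, true, (5, 8), [(2, 4), (3, 4), (3, 5), (3, 6), (4, 6), (4, 7)],
      [(2, 4), (3, 4), (4, 4), (4, 5), (4, 6), (5, 6), (5, 7), (5, 8), (4, 8), (4, 7), (3, 7), (3,
        6), (3, 5), (2, 5)]⟩,
    ⟨true, true, false, (4, 7), [(0, 9), (0, 8), (1, 8), (2, 8), (2, 7), (3, 7)],
      [(0, 8), (1, 8), (2, 8), (2, 7), (3, 7), (4, 7), (4, 8), (3, 8), (3, 9), (2, 9), (1, 9), (1,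
        10), (0, 10), (0, 9)]⟩]

def cert5 : Cert where
  N := [(3, 1), (1, 2), (2, 1), (1, 1), (0, 1), (0, 0)]
  Ncyc := [(0, 0), (1, 0), (1, 1), (2, 1), (3, 1), (4, 1), (4, 2), (3, 2), (2, 2), (2, 3), (1, 3),
    (1, 2), (0, 2), (0, 1)]
  Nfr := [⟨(3, 1), (1, 0, 0), (0, 1, 0), (0, 0, 1)⟩,
    ⟨(1, 2), (0, 1, 1), (0, -1, 0), (1, 0, 0)⟩,
    ⟨(2, 1), (0, 0, 0), (1, 0, 0), (0, 0, 1)⟩,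
    ⟨(1, 1), (0, 1, 0), (0, -1, 0), (0, 0, 1)⟩,
    ⟨(0, 1), (1, 1, 0), (-1, 0, 0), (0, 0, 1)⟩,
    ⟨(0, 0), (1, 0, 0), (-1, 0, 0), (0, 1, 0)⟩]
  m := 2
  fr := [⟨(5, 9), (0, 1, 1), (0, -1, 0), (0, 0, 1)⟩,
    ⟨(5, 8), (0, 1, 0), (0, -1, 0), (0, 0, 1)⟩,
    ⟨(6, 7), (1, 0, 0), (0, 0, 1), (-1, 0, 0)⟩,
    ⟨(5, 7), (1, 1, 0), (0, -1, 0), (-1, 0, 0)⟩,
    ⟨(5, 6), (2, 1, 0), (0, -1, 0), (-1, 0, 0)⟩,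
    ⟨(2, 6), (0, 2, 0), (1, 0, 0), (0, -1, 0)⟩,
    ⟨(4, 6), (2, 2, 0), (0, -1, 0), (-1, 0, 0)⟩,
    ⟨(5, 5), (2, 1, 1), (0, -1, 0), (0, 0, -1)⟩,
    ⟨(0, 3), (0, 1, 0), (0, 0, 1), (0, 1, 0)⟩,
    ⟨(2, 5), (0, 2, 1), (1, 0, 0), (0, 0, -1)⟩,
    ⟨(4, 5), (2, 2, 1), (0, -1, 0), (0, 0, -1)⟩,
    ⟨(3, 0), (0, 1, 2), (0, -1, 0), (1, 0, 0)⟩,
    ⟨(1, 3), (0, 1, 1), (0, 0, 1), (0, 1, 0)⟩,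
    ⟨(2, 4), (0, 2, 2), (1, 0, 0), (0, 0, -1)⟩,
    ⟨(3, 5), (1, 2, 1), (1, 0, 0), (0, 0, -1)⟩,
    ⟨(4, 0), (0, 0, 2), (0, 0, -1), (1, 0, 0)⟩,
    ⟨(5, 1), (1, 0, 1), (0, 0, -1), (1, 0, 0)⟩,
    ⟨(2, 3), (0, 1, 2), (1, 0, 0), (0, 1, 0)⟩,
    ⟨(3, 4), (1, 2, 2), (1, 0, 0), (0, 0, -1)⟩,
    ⟨(4, 1), (1, 0, 2), (0, 0, -1), (1, 0, 0)⟩,
    ⟨(4, 3), (2, 1, 2), (0, 0, -1), (0, 1, 0)⟩,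
    ⟨(3, 3), (1, 1, 2), (1, 0, 0), (0, 1, 0)⟩,
    ⟨(4, 2), (2, 0, 2), (0, 0, -1), (0, 1, 0)⟩,
    ⟨(3, 2), (1, 0, 2), (1, 0, 0), (0, 1, 0)⟩]
  cyc := [(0, 3), (1, 3), (2, 3), (3, 3), (3, 2), (4, 2), (4, 1), (3, 1), (3, 0), (4, 0), (5, 0),
    (5, 1), (6, 1), (6, 2), (5, 2), (5, 3), (5, 4), (4, 4), (4, 5), (5, 5), (6, 5), (6, 6), (6,
    7), (7, 7), (7, 8), (6, 8), (6, 9), (6, 10), (5, 10), (5, 9), (5, 8), (5, 7), (4, 7), (4, 6),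
    (3, 6), (3, 7), (2, 7), (2, 6), (2, 5), (2, 4), (1, 4), (0, 4)]
  pieces := [⟨false, true, false, (4, 2), [(0, 3), (1, 3), (2, 4), (2, 3), (3, 3), (3, 2)],
      [(0, 3), (1, 3), (2, 3), (3, 3), (3, 2), (4, 2), (4, 3), (4, 4), (3, 4), (3, 5), (2, 5), (2,
        4), (1, 4), (0, 4)]⟩,
    ⟨false, false, true, (2, 7), [(5, 5), (3, 4), (4, 5), (3, 5), (2, 5), (2, 6)],
      [(2, 5), (3, 5), (3, 4), (4, 4), (4, 5), (5, 5), (6, 5), (6, 6), (5, 6), (4, 6), (3, 6), (3,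
        7), (2, 7), (2, 6)]⟩,
    ⟨true, false, false, (3, 0), [(4, 3), (4, 2), (5, 1), (4, 1), (4, 0), (3, 0)],
      [(3, 0), (4, 0), (5, 0), (5, 1), (6, 1), (6, 2), (5, 2), (5, 3), (5, 4), (4, 4), (4, 3), (4,
        2), (4, 1), (3, 1)]⟩,
    ⟨true, false, false, (4, 6), [(5, 9), (5, 8), (6, 7), (5, 7), (5, 6), (4, 6)],
      [(4, 6), (5, 6), (6, 6), (6, 7), (7, 7), (7, 8), (6, 8), (6, 9), (6, 10), (5, 10), (5, 9),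
        (5, 8), (5, 7), (4, 7)]⟩]

def cert6 : Cert where
  N := [(2, 3), (2, 2), (1, 2), (1, 1), (0, 1), (0, 0)]
  Ncyc := [(0, 0), (1, 0), (1, 1), (2, 1), (2, 2), (3, 2), (3, 3), (3, 4), (2, 4), (2, 3), (1, 3),
    (1, 2), (0, 2), (0, 1)]
  Nfr := [⟨(2, 3), (1, 0, 0), (0, 1, 0), (0, 0, 1)⟩,
    ⟨(2, 2), (0, 0, 0), (0, 1, 0), (1, 0, 0)⟩,
    ⟨(1, 2), (0, 0, 1), (0, 0, -1), (1, 0, 0)⟩,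
    ⟨(1, 1), (0, 1, 1), (0, 0, -1), (0, -1, 0)⟩,
    ⟨(0, 1), (1, 1, 1), (-1, 0, 0), (0, -1, 0)⟩,
    ⟨(0, 0), (1, 1, 0), (-1, 0, 0), (0, 0, 1)⟩]
  m := 2
  fr := [⟨(0, 8), (1, 2, 1), (-1, 0, 0), (0, 0, 1)⟩,
    ⟨(1, 8), (0, 2, 1), (0, -1, 0), (0, 0, 1)⟩,
    ⟨(2, 7), (0, 1, 0), (0, -1, 0), (0, 0, 1)⟩,
    ⟨(3, 6), (1, 0, 0), (0, 0, 1), (-1, 0, 0)⟩,
    ⟨(0, 6), (1, 2, 1), (0, 0, -1), (-1, 0, 0)⟩,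
    ⟨(1, 7), (0, 2, 0), (0, -1, 0), (0, 0, 1)⟩,
    ⟨(2, 6), (1, 1, 0), (0, -1, 0), (-1, 0, 0)⟩,
    ⟨(1, 6), (1, 2, 0), (0, -1, 0), (-1, 0, 0)⟩,
    ⟨(3, 0), (0, 0, 1), (1, 0, 0), (0, 0, 1)⟩,
    ⟨(2, 5), (2, 1, 0), (0, -1, 0), (-1, 0, 0)⟩,
    ⟨(3, 4), (2, 0, 1), (-1, 0, 0), (0, 0, -1)⟩,
    ⟨(0, 4), (1, 2, 1), (1, 0, 0), (0, 0, -1)⟩,
    ⟨(1, 5), (2, 2, 0), (0, -1, 0), (-1, 0, 0)⟩,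
    ⟨(2, 0), (0, 1, 1), (0, -1, 0), (0, 0, 1)⟩,
    ⟨(2, 4), (2, 1, 1), (0, -1, 0), (0, 0, -1)⟩,
    ⟨(1, 4), (2, 2, 1), (0, -1, 0), (0, 0, -1)⟩,
    ⟨(2, 1), (0, 1, 2), (0, -1, 0), (1, 0, 0)⟩,
    ⟨(2, 3), (2, 1, 2), (0, -1, 0), (0, 0, -1)⟩,
    ⟨(3, 2), (1, 0, 2), (0, 0, -1), (1, 0, 0)⟩,
    ⟨(1, 1), (0, 2, 2), (0, -1, 0), (1, 0, 0)⟩,
    ⟨(1, 3), (2, 2, 2), (0, -1, 0), (0, 0, -1)⟩,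
    ⟨(2, 2), (1, 1, 2), (0, -1, 0), (1, 0, 0)⟩,
    ⟨(1, 2), (1, 2, 2), (0, -1, 0), (1, 0, 0)⟩,
    ⟨(0, 2), (1, 2, 1), (0, 0, 1), (1, 0, 0)⟩]
  cyc := [(0, 2), (1, 2), (1, 1), (2, 1), (2, 0), (3, 0), (4, 0), (4, 1), (3, 1), (3, 2), (4, 2),
    (4, 3), (3, 3), (3, 4), (4, 4), (4, 5), (3, 5), (3, 6), (4, 6), (4, 7), (3, 7), (3, 8), (2,
    8), (2, 9), (1, 9), (0, 9), (0, 8), (1, 8), (1, 7), (0, 7), (0, 6), (1, 6), (1, 5), (0, 5),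
    (0, 4), (1, 4), (1, 3), (0, 3)]
  pieces := [⟨true, false, true, (0, 3), [(3, 0), (2, 0), (2, 1), (1, 1), (1, 2), (0, 2)],
      [(0, 2), (1, 2), (1, 1), (2, 1), (2, 0), (3, 0), (4, 0), (4, 1), (3, 1), (3, 2), (2, 2), (2,
        3), (1, 3), (0, 3)]⟩,
    ⟨true, false, true, (0, 5), [(3, 2), (2, 2), (2, 3), (1, 3), (1, 4), (0, 4)],
      [(0, 4), (1, 4), (1, 3), (2, 3), (2, 2), (3, 2), (4, 2), (4, 3), (3, 3), (3, 4), (2, 4), (2,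
        5), (1, 5), (0, 5)]⟩,
    ⟨true, false, true, (0, 7), [(3, 4), (2, 4), (2, 5), (1, 5), (1, 6), (0, 6)],
      [(0, 6), (1, 6), (1, 5), (2, 5), (2, 4), (3, 4), (4, 4), (4, 5), (3, 5), (3, 6), (2, 6), (2,
        7), (1, 7), (0, 7)]⟩,
    ⟨true, false, true, (0, 9), [(3, 6), (2, 6), (2, 7), (1, 7), (1, 8), (0, 8)],
      [(0, 8), (1, 8), (1, 7), (2, 7), (2, 6), (3, 6), (4, 6), (4, 7), (3, 7), (3, 8), (2, 8), (2,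
        9), (1, 9), (0, 9)]⟩]

def cert7 : Cert where
  N := [(2, 2), (3, 1), (2, 1), (1, 1), (0, 1), (0, 0)]
  Ncyc := [(0, 0), (1, 0), (1, 1), (2, 1), (3, 1), (4, 1), (4, 2), (3, 2), (3, 3), (2, 3), (2, 2),
    (1, 2), (0, 2), (0, 1)]
  Nfr := [⟨(2, 2), (1, 0, 0), (0, 1, 0), (0, 0, 1)⟩,
    ⟨(3, 1), (0, 1, 0), (0, 0, 1), (1, 0, 0)⟩,
    ⟨(2, 1), (0, 0, 0), (0, 1, 0), (1, 0, 0)⟩,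
    ⟨(1, 1), (0, 0, 1), (0, 0, -1), (1, 0, 0)⟩,
    ⟨(0, 1), (0, 1, 1), (0, -1, 0), (1, 0, 0)⟩,
    ⟨(0, 0), (0, 1, 0), (0, -1, 0), (0, 0, 1)⟩]
  m := 2
  fr := [⟨(4, 7), (1, 2, 0), (1, 0, 0), (0, -1, 0)⟩,
    ⟨(4, 6), (1, 2, 1), (1, 0, 0), (0, 0, -1)⟩,
    ⟨(6, 4), (2, 1, 1), (0, 0, -1), (0, 1, 0)⟩,
    ⟨(7, 3), (2, 0, 0), (-1, 0, 0), (0, 1, 0)⟩,
    ⟨(3, 0), (0, 1, 0), (1, 0, 0), (0, -1, 0)⟩,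
    ⟨(3, 6), (0, 2, 1), (1, 0, 0), (0, 0, -1)⟩,
    ⟨(4, 1), (1, 0, 0), (1, 0, 0), (0, 0, 1)⟩,
    ⟨(4, 5), (1, 2, 2), (1, 0, 0), (0, 0, -1)⟩,
    ⟨(5, 4), (2, 1, 2), (0, 0, -1), (0, 1, 0)⟩,
    ⟨(6, 3), (2, 0, 1), (0, 0, -1), (0, 1, 0)⟩,
    ⟨(0, 4), (1, 1, 0), (-1, 0, 0), (0, 1, 0)⟩,
    ⟨(3, 1), (0, 0, 0), (1, 0, 0), (0, 0, 1)⟩,
    ⟨(3, 5), (0, 2, 2), (1, 0, 0), (0, 0, -1)⟩,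
    ⟨(4, 2), (1, 0, 1), (1, 0, 0), (0, 0, 1)⟩,
    ⟨(4, 4), (1, 1, 2), (1, 0, 0), (0, 1, 0)⟩,
    ⟨(5, 3), (2, 0, 2), (0, 0, -1), (0, 1, 0)⟩,
    ⟨(1, 4), (0, 1, 0), (0, 0, 1), (0, 1, 0)⟩,
    ⟨(3, 2), (0, 0, 1), (1, 0, 0), (0, 0, 1)⟩,
    ⟨(3, 4), (0, 1, 2), (1, 0, 0), (0, 1, 0)⟩,
    ⟨(4, 3), (1, 0, 2), (1, 0, 0), (0, 1, 0)⟩,
    ⟨(1, 3), (0, 0, 0), (0, 0, 1), (0, 1, 0)⟩,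
    ⟨(2, 4), (0, 1, 1), (0, 0, 1), (0, 1, 0)⟩,
    ⟨(3, 3), (0, 0, 2), (1, 0, 0), (0, 1, 0)⟩,
    ⟨(2, 3), (0, 0, 1), (0, 0, 1), (0, 1, 0)⟩]
  cyc := [(0, 4), (1, 4), (1, 3), (2, 3), (3, 3), (3, 2), (3, 1), (3, 0), (4, 0), (4, 1), (5, 1),
    (5, 2), (5, 3), (6, 3), (7, 3), (8, 3), (8, 4), (7, 4), (7, 5), (6, 5), (5, 5), (5, 6), (5,
    7), (5, 8), (4, 8), (4, 7), (3, 7), (3, 6), (3, 5), (2, 5), (1, 5), (0, 5)]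
  pieces := [⟨true, false, true, (2, 4), [(3, 0), (4, 1), (3, 1), (3, 2), (3, 3), (2, 3)],
      [(2, 3), (3, 3), (3, 2), (3, 1), (3, 0), (4, 0), (4, 1), (5, 1), (5, 2), (4, 2), (4, 3), (4,
        4), (3, 4), (2, 4)]⟩,
    ⟨false, false, false, (4, 2), [(6, 4), (7, 3), (6, 3), (5, 3), (4, 3), (4, 2)],
      [(4, 2), (5, 2), (5, 3), (6, 3), (7, 3), (8, 3), (8, 4), (7, 4), (7, 5), (6, 5), (6, 4), (5,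
        4), (4, 4), (4, 3)]⟩,
    ⟨false, true, true, (4, 6), [(1, 3), (0, 4), (1, 4), (2, 4), (3, 4), (3, 5)],
      [(0, 4), (1, 4), (1, 3), (2, 3), (2, 4), (3, 4), (4, 4), (4, 5), (4, 6), (3, 6), (3, 5), (2,
        5), (1, 5), (0, 5)]⟩,
    ⟨true, true, false, (6, 4), [(3, 6), (4, 7), (4, 6), (4, 5), (4, 4), (5, 4)],
      [(3, 6), (4, 6), (4, 5), (4, 4), (5, 4), (6, 4), (6, 5), (5, 5), (5, 6), (5, 7), (5, 8), (4,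
        8), (4, 7), (3, 7)]⟩]

def cert8 : Cert where
  N := [(3, 2), (3, 1), (2, 1), (1, 1), (0, 1), (0, 0)]
  Ncyc := [(0, 0), (1, 0), (1, 1), (2, 1), (3, 1), (4, 1), (4, 2), (4, 3), (3, 3), (3, 2), (2, 2),
    (1, 2), (0, 2), (0, 1)]
  Nfr := [⟨(3, 2), (1, 0, 0), (0, 1, 0), (0, 0, 1)⟩,
    ⟨(3, 1), (0, 0, 0), (0, 1, 0), (1, 0, 0)⟩,
    ⟨(2, 1), (0, 0, 1), (0, 0, -1), (1, 0, 0)⟩,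
    ⟨(1, 1), (0, 1, 1), (0, -1, 0), (1, 0, 0)⟩,
    ⟨(0, 1), (0, 1, 0), (0, 0, 1), (1, 0, 0)⟩,
    ⟨(0, 0), (0, 0, 0), (0, 0, 1), (0, 1, 0)⟩]
  m := 3
  fr := [⟨(0, 13), (2, 0, 0), (1, 0, 0), (0, 0, 1)⟩,
    ⟨(1, 13), (3, 0, 0), (0, 1, 0), (0, 0, 1)⟩,
    ⟨(1, 12), (2, 0, 0), (0, 1, 0), (1, 0, 0)⟩,
    ⟨(1, 11), (1, 0, 0), (0, 1, 0), (1, 0, 0)⟩,
    ⟨(1, 10), (0, 0, 0), (0, 1, 0), (1, 0, 0)⟩,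
    ⟨(2, 10), (0, 1, 0), (0, 1, 0), (1, 0, 0)⟩,
    ⟨(3, 10), (0, 2, 0), (0, 1, 0), (1, 0, 0)⟩,
    ⟨(4, 10), (0, 3, 0), (0, 0, 1), (1, 0, 0)⟩,
    ⟨(4, 9), (0, 2, 0), (0, 0, 1), (0, 1, 0)⟩,
    ⟨(4, 8), (0, 1, 0), (0, 0, 1), (0, 1, 0)⟩,
    ⟨(5, 9), (0, 2, 1), (0, 0, 1), (0, 1, 0)⟩,
    ⟨(4, 7), (0, 0, 0), (0, 0, 1), (0, 1, 0)⟩,
    ⟨(5, 8), (0, 1, 1), (0, 0, 1), (0, 1, 0)⟩,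
    ⟨(5, 7), (0, 0, 1), (0, 0, 1), (0, 1, 0)⟩,
    ⟨(6, 8), (0, 1, 2), (0, 0, 1), (0, 1, 0)⟩,
    ⟨(16, 0), (0, 2, 3), (1, 0, 0), (0, 1, 0)⟩,
    ⟨(6, 7), (0, 0, 2), (0, 0, 1), (0, 1, 0)⟩,
    ⟨(7, 8), (0, 1, 3), (1, 0, 0), (0, 1, 0)⟩,
    ⟨(8, 9), (1, 2, 3), (1, 0, 0), (0, 1, 0)⟩,
    ⟨(15, 0), (0, 2, 2), (0, 0, 1), (0, 1, 0)⟩,
    ⟨(7, 7), (0, 0, 3), (1, 0, 0), (0, 1, 0)⟩,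
    ⟨(8, 8), (1, 1, 3), (1, 0, 0), (0, 1, 0)⟩,
    ⟨(9, 9), (2, 2, 3), (1, 0, 0), (0, 1, 0)⟩,
    ⟨(15, 1), (0, 3, 2), (0, 0, 1), (1, 0, 0)⟩,
    ⟨(7, 4), (0, 0, 0), (1, 0, 0), (0, 0, 1)⟩,
    ⟨(7, 6), (0, 0, 2), (1, 0, 0), (0, 0, 1)⟩,
    ⟨(8, 7), (1, 0, 3), (1, 0, 0), (0, 1, 0)⟩,
    ⟨(9, 8), (2, 1, 3), (1, 0, 0), (0, 1, 0)⟩,
    ⟨(14, 1), (0, 3, 1), (0, 0, 1), (1, 0, 0)⟩,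
    ⟨(15, 2), (1, 3, 2), (0, 0, 1), (1, 0, 0)⟩,
    ⟨(8, 4), (1, 0, 0), (1, 0, 0), (0, 0, 1)⟩,
    ⟨(7, 5), (0, 0, 1), (1, 0, 0), (0, 0, 1)⟩,
    ⟨(8, 6), (1, 0, 2), (1, 0, 0), (0, 0, 1)⟩,
    ⟨(9, 7), (2, 0, 3), (1, 0, 0), (0, 1, 0)⟩,
    ⟨(14, 2), (1, 3, 1), (0, 0, 1), (1, 0, 0)⟩,
    ⟨(15, 3), (2, 3, 2), (0, 0, 1), (1, 0, 0)⟩,
    ⟨(8, 5), (1, 0, 1), (1, 0, 0), (0, 0, 1)⟩,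
    ⟨(9, 6), (2, 0, 2), (1, 0, 0), (0, 0, 1)⟩,
    ⟨(13, 2), (1, 3, 0), (0, 0, 1), (1, 0, 0)⟩,
    ⟨(14, 3), (2, 3, 1), (0, 0, 1), (1, 0, 0)⟩,
    ⟨(9, 5), (2, 0, 1), (1, 0, 0), (0, 0, 1)⟩,
    ⟨(10, 6), (3, 0, 2), (0, 1, 0), (0, 0, 1)⟩,
    ⟨(12, 2), (1, 2, 0), (0, 1, 0), (1, 0, 0)⟩,
    ⟨(13, 3), (2, 3, 0), (0, 0, 1), (1, 0, 0)⟩,
    ⟨(12, 6), (3, 2, 2), (0, 1, 0), (0, 0, 1)⟩,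
    ⟨(11, 2), (1, 1, 0), (0, 1, 0), (1, 0, 0)⟩,
    ⟨(10, 5), (3, 0, 1), (0, 1, 0), (0, 0, 1)⟩,
    ⟨(11, 6), (3, 1, 2), (0, 1, 0), (0, 0, 1)⟩,
    ⟨(12, 3), (2, 2, 0), (0, 1, 0), (1, 0, 0)⟩,
    ⟨(12, 5), (3, 2, 1), (0, 1, 0), (0, 0, 1)⟩,
    ⟨(11, 3), (2, 1, 0), (0, 1, 0), (1, 0, 0)⟩,
    ⟨(11, 5), (3, 1, 1), (0, 1, 0), (0, 0, 1)⟩,
    ⟨(12, 4), (3, 2, 0), (0, 1, 0), (0, 0, 1)⟩,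
    ⟨(11, 4), (3, 1, 0), (0, 1, 0), (0, 0, 1)⟩]
  cyc := [(0, 13), (1, 13), (1, 12), (1, 11), (1, 10), (2, 10), (3, 10), (4, 10), (4, 9), (4, 8),
    (4, 7), (5, 7), (6, 7), (7, 7), (7, 6), (7, 5), (7, 4), (8, 4), (9, 4), (9, 5), (10, 5), (11,
    5), (11, 4), (11, 3), (11, 2), (12, 2), (13, 2), (14, 2), (14, 1), (15, 1), (15, 0), (16, 0),
    (17, 0), (17, 1), (16, 1), (16, 2), (16, 3), (16, 4), (15, 4), (14, 4), (13, 4), (13, 5), (13,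
    6), (13, 7), (12, 7), (11, 7), (10, 7), (10, 8), (10, 9), (10, 10), (9, 10), (8, 10), (8, 9),
    (7, 9), (6, 9), (6, 10), (5, 10), (5, 11), (4, 11), (3, 11), (2, 11), (2, 12), (2, 13), (2,
    14), (1, 14), (0, 14)]
  pieces := [⟨false, false, true, (8, 7), [(8, 6), (8, 5), (9, 5), (10, 5), (11, 5), (11, 4)],
      [(8, 5), (9, 5), (10, 5), (11, 5), (11, 4), (12, 4), (12, 5), (12, 6), (11, 6), (10, 6), (9,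
        6), (9, 7), (8, 7), (8, 6)]⟩,
    ⟨true, false, true, (11, 7), [(13, 3), (12, 3), (12, 4), (12, 5), (12, 6), (11, 6)],
      [(11, 6), (12, 6), (12, 5), (12, 4), (12, 3), (13, 3), (14, 3), (14, 4), (13, 4), (13, 5),
        (13, 6), (13, 7), (12, 7), (11, 7)]⟩,
    ⟨false, false, true, (5, 10), [(8, 7), (8, 8), (7, 8), (6, 8), (5, 8), (5, 9)],
      [(5, 8), (6, 8), (7, 8), (8, 8), (8, 7), (9, 7), (9, 8), (9, 9), (8, 9), (7, 9), (6, 9), (6,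
        10), (5, 10), (5, 9)]⟩,
    ⟨true, false, true, (8, 10), [(8, 9), (9, 9), (9, 8), (9, 7), (9, 6), (10, 6)],
      [(8, 9), (9, 9), (9, 8), (9, 7), (9, 6), (10, 6), (11, 6), (11, 7), (10, 7), (10, 8), (10,
        9), (10, 10), (9, 10), (8, 10)]⟩,
    ⟨true, false, true, (6, 8), [(8, 4), (7, 4), (7, 5), (7, 6), (7, 7), (6, 7)],
      [(6, 7), (7, 7), (7, 6), (7, 5), (7, 4), (8, 4), (9, 4), (9, 5), (8, 5), (8, 6), (8, 7), (8,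
        8), (7, 8), (6, 8)]⟩,
    ⟨true, false, true, (3, 11), [(3, 10), (4, 10), (4, 9), (4, 8), (4, 7), (5, 7)],
      [(3, 10), (4, 10), (4, 9), (4, 8), (4, 7), (5, 7), (6, 7), (6, 8), (5, 8), (5, 9), (5, 10),
        (5, 11), (4, 11), (3, 11)]⟩,
    ⟨true, false, true, (0, 14), [(2, 10), (1, 10), (1, 11), (1, 12), (1, 13), (0, 13)],
      [(0, 13), (1, 13), (1, 12), (1, 11), (1, 10), (2, 10), (3, 10), (3, 11), (2, 11), (2, 12),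
        (2, 13), (2, 14), (1, 14), (0, 14)]⟩,
    ⟨false, false, true, (11, 4), [(11, 3), (11, 2), (12, 2), (13, 2), (14, 2), (14, 1)],
      [(11, 2), (12, 2), (13, 2), (14, 2), (14, 1), (15, 1), (15, 2), (15, 3), (14, 3), (13, 3),
        (12, 3), (12, 4), (11, 4), (11, 3)]⟩,
    ⟨true, false, true, (14, 4), [(16, 0), (15, 0), (15, 1), (15, 2), (15, 3), (14, 3)],
      [(14, 3), (15, 3), (15, 2), (15, 1), (15, 0), (16, 0), (17, 0), (17, 1), (16, 1), (16, 2),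
        (16, 3), (16, 4), (15, 4), (14, 4)]⟩]

def cert9 : Cert where
  N := [(1, 3), (1, 0), (1, 2), (2, 1), (1, 1), (0, 1)]
  Ncyc := [(0, 1), (1, 1), (1, 0), (2, 0), (2, 1), (3, 1), (3, 2), (2, 2), (2, 3), (2, 4), (1, 4),
    (1, 3), (1, 2), (0, 2)]
  Nfr := [⟨(1, 3), (1, 0, 0), (0, 1, 0), (0, 0, 1)⟩,
    ⟨(1, 0), (1, 0, 1), (0, 1, 0), (-1, 0, 0)⟩,
    ⟨(1, 2), (0, 0, 0), (0, 1, 0), (1, 0, 0)⟩,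
    ⟨(2, 1), (0, 1, 1), (1, 0, 0), (0, 0, -1)⟩,
    ⟨(1, 1), (0, 0, 1), (0, 1, 0), (0, 0, -1)⟩,
    ⟨(0, 1), (1, 0, 1), (-1, 0, 0), (0, 0, -1)⟩]
  m := 2
  fr := [⟨(8, 2), (2, 1, 1), (0, 0, -1), (0, 1, 0)⟩,
    ⟨(8, 4), (1, 2, 1), (0, 0, -1), (-1, 0, 0)⟩,
    ⟨(9, 3), (2, 2, 0), (0, -1, 0), (-1, 0, 0)⟩,
    ⟨(8, 3), (2, 2, 1), (0, 0, -1), (-1, 0, 0)⟩,
    ⟨(0, 4), (1, 1, 0), (-1, 0, 0), (0, 1, 0)⟩,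
    ⟨(7, 3), (2, 2, 2), (0, 0, -1), (-1, 0, 0)⟩,
    ⟨(1, 4), (0, 1, 0), (0, 0, 1), (0, 1, 0)⟩,
    ⟨(2, 5), (0, 2, 1), (0, 0, 1), (1, 0, 0)⟩,
    ⟨(6, 3), (2, 1, 2), (0, 1, 0), (-1, 0, 0)⟩,
    ⟨(2, 4), (0, 1, 1), (0, 0, 1), (0, 1, 0)⟩,
    ⟨(5, 3), (2, 0, 2), (0, 1, 0), (-1, 0, 0)⟩,
    ⟨(6, 2), (2, 1, 1), (0, 1, 0), (0, 0, 1)⟩,
    ⟨(2, 3), (0, 0, 1), (0, 0, 1), (0, 1, 0)⟩,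
    ⟨(3, 4), (0, 1, 2), (1, 0, 0), (0, 1, 0)⟩,
    ⟨(5, 0), (1, 0, 0), (0, 1, 0), (1, 0, 0)⟩,
    ⟨(5, 2), (2, 0, 1), (0, 1, 0), (0, 0, 1)⟩,
    ⟨(3, 3), (0, 0, 2), (1, 0, 0), (0, 1, 0)⟩,
    ⟨(4, 2), (1, 0, 1), (1, 0, 0), (0, 0, 1)⟩,
    ⟨(5, 1), (2, 0, 0), (0, 1, 0), (0, 0, 1)⟩,
    ⟨(3, 0), (0, 1, 0), (1, 0, 0), (0, -1, 0)⟩,
    ⟨(3, 2), (0, 0, 1), (1, 0, 0), (0, 0, 1)⟩,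
    ⟨(4, 1), (1, 0, 0), (1, 0, 0), (0, 0, 1)⟩,
    ⟨(3, 1), (0, 0, 0), (1, 0, 0), (0, 0, 1)⟩,
    ⟨(2, 1), (0, 1, 0), (0, -1, 0), (0, 0, 1)⟩]
  cyc := [(0, 4), (1, 4), (2, 4), (2, 3), (3, 3), (3, 2), (2, 2), (2, 1), (3, 1), (3, 0), (4, 0),
    (4, 1), (5, 1), (5, 0), (6, 0), (6, 1), (6, 2), (7, 2), (7, 3), (8, 3), (8, 2), (9, 2), (9,
    3), (10, 3), (10, 4), (9, 4), (9, 5), (8, 5), (8, 4), (7, 4), (6, 4), (5, 4), (5, 3), (4, 3),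
    (4, 4), (4, 5), (3, 5), (3, 6), (2, 6), (2, 5), (1, 5), (0, 5)]
  pieces := [⟨false, false, false, (2, 0), [(3, 3), (3, 0), (3, 2), (4, 1), (3, 1), (2, 1)],
      [(2, 1), (3, 1), (3, 0), (4, 0), (4, 1), (5, 1), (5, 2), (4, 2), (4, 3), (4, 4), (3, 4), (3,
        3), (3, 2), (2, 2)]⟩,
    ⟨false, false, true, (4, 4), [(5, 0), (5, 1), (4, 2), (5, 3), (5, 2), (6, 2)],
      [(4, 2), (5, 2), (5, 1), (5, 0), (6, 0), (6, 1), (6, 2), (7, 2), (7, 3), (6, 3), (6, 4), (5,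
        4), (5, 3), (4, 3)]⟩,
    ⟨true, true, false, (4, 3), [(0, 4), (1, 4), (2, 5), (3, 4), (2, 4), (2, 3)],
      [(0, 4), (1, 4), (2, 4), (2, 3), (3, 3), (3, 4), (4, 4), (4, 5), (3, 5), (3, 6), (2, 6), (2,
        5), (1, 5), (0, 5)]⟩,
    ⟨true, true, false, (10, 2), [(6, 3), (7, 3), (8, 4), (9, 3), (8, 3), (8, 2)],
      [(6, 3), (7, 3), (8, 3), (8, 2), (9, 2), (9, 3), (10, 3), (10, 4), (9, 4), (9, 5), (8, 5),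
        (8, 4), (7, 4), (6, 4)]⟩]

def cert10 : Cert where
  N := [(1, 3), (2, 2), (1, 0), (1, 2), (1, 1), (0, 1)]
  Ncyc := [(0, 1), (1, 1), (1, 0), (2, 0), (2, 1), (2, 2), (3, 2), (3, 3), (2, 3), (2, 4), (1, 4),
    (1, 3), (1, 2), (0, 2)]
  Nfr := [⟨(1, 3), (1, 0, 0), (0, 1, 0), (0, 0, 1)⟩,
    ⟨(2, 2), (0, 1, 0), (0, 0, 1), (1, 0, 0)⟩,
    ⟨(1, 0), (1, 0, 1), (0, 1, 0), (-1, 0, 0)⟩,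
    ⟨(1, 2), (0, 0, 0), (0, 1, 0), (1, 0, 0)⟩,
    ⟨(1, 1), (0, 0, 1), (0, 1, 0), (0, 0, -1)⟩,
    ⟨(0, 1), (1, 0, 1), (-1, 0, 0), (0, 0, -1)⟩]
  m := 2
  fr := [⟨(0, 6), (1, 1, 0), (0, 1, 0), (1, 0, 0)⟩,
    ⟨(1, 7), (2, 2, 0), (0, 0, 1), (0, -1, 0)⟩,
    ⟨(1, 6), (1, 2, 0), (0, 0, 1), (1, 0, 0)⟩,
    ⟨(3, 6), (1, 2, 2), (0, -1, 0), (1, 0, 0)⟩,
    ⟨(0, 4), (1, 1, 0), (-1, 0, 0), (0, 1, 0)⟩,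
    ⟨(1, 5), (0, 2, 0), (0, 0, 1), (1, 0, 0)⟩,
    ⟨(2, 6), (1, 2, 1), (0, 0, 1), (1, 0, 0)⟩,
    ⟨(1, 4), (0, 1, 0), (0, 0, 1), (0, 1, 0)⟩,
    ⟨(2, 5), (0, 2, 1), (0, 0, 1), (1, 0, 0)⟩,
    ⟨(2, 4), (0, 1, 1), (0, 0, 1), (0, 1, 0)⟩,
    ⟨(5, 3), (2, 0, 2), (0, 1, 0), (-1, 0, 0)⟩,
    ⟨(6, 2), (2, 1, 1), (0, 1, 0), (0, 0, 1)⟩,
    ⟨(2, 3), (0, 0, 1), (0, 0, 1), (0, 1, 0)⟩,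
    ⟨(3, 4), (0, 1, 2), (1, 0, 0), (0, 1, 0)⟩,
    ⟨(5, 0), (1, 0, 0), (0, 1, 0), (1, 0, 0)⟩,
    ⟨(5, 2), (2, 0, 1), (0, 1, 0), (0, 0, 1)⟩,
    ⟨(3, 3), (0, 0, 2), (1, 0, 0), (0, 1, 0)⟩,
    ⟨(4, 2), (1, 0, 1), (1, 0, 0), (0, 0, 1)⟩,
    ⟨(5, 1), (2, 0, 0), (0, 1, 0), (0, 0, 1)⟩,
    ⟨(3, 0), (0, 1, 0), (1, 0, 0), (0, -1, 0)⟩,
    ⟨(3, 2), (0, 0, 1), (1, 0, 0), (0, 0, 1)⟩,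
    ⟨(4, 1), (1, 0, 0), (1, 0, 0), (0, 0, 1)⟩,
    ⟨(3, 1), (0, 0, 0), (1, 0, 0), (0, 0, 1)⟩,
    ⟨(2, 1), (0, 1, 0), (0, -1, 0), (0, 0, 1)⟩]
  cyc := [(0, 4), (1, 4), (2, 4), (2, 3), (3, 3), (3, 2), (2, 2), (2, 1), (3, 1), (3, 0), (4, 0),
    (4, 1), (5, 1), (5, 0), (6, 0), (6, 1), (6, 2), (7, 2), (7, 3), (6, 3), (6, 4), (5, 4), (5,
    3), (4, 3), (4, 4), (4, 5), (3, 5), (3, 6), (4, 6), (4, 7), (3, 7), (2, 7), (2, 8), (1, 8),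
    (1, 7), (0, 7), (0, 6), (1, 6), (1, 5), (0, 5)]
  pieces := [⟨false, false, false, (2, 0), [(3, 3), (4, 2), (3, 0), (3, 2), (3, 1), (2, 1)],
      [(2, 1), (3, 1), (3, 0), (4, 0), (4, 1), (4, 2), (5, 2), (5, 3), (4, 3), (4, 4), (3, 4), (3,
        3), (3, 2), (2, 2)]⟩,
    ⟨false, false, false, (4, 0), [(5, 0), (4, 1), (5, 1), (5, 3), (5, 2), (6, 2)],
      [(4, 1), (5, 1), (5, 0), (6, 0), (6, 1), (6, 2), (7, 2), (7, 3), (6, 3), (6, 4), (5, 4), (5,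
        3), (5, 2), (4, 2)]⟩,
    ⟨true, false, true, (0, 6), [(0, 4), (1, 5), (1, 4), (3, 4), (2, 4), (2, 3)],
      [(0, 4), (1, 4), (2, 4), (2, 3), (3, 3), (3, 4), (4, 4), (4, 5), (3, 5), (2, 5), (2, 6), (1,
        6), (1, 5), (0, 5)]⟩,
    ⟨true, false, true, (0, 8), [(2, 5), (3, 6), (0, 6), (2, 6), (1, 6), (1, 7)],
      [(0, 6), (1, 6), (2, 6), (2, 5), (3, 5), (3, 6), (4, 6), (4, 7), (3, 7), (2, 7), (2, 8), (1,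
        8), (1, 7), (0, 7)]⟩]

end Q139.Net
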