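import Mathlib

/-!
Polyominoes, nets of cubes, uniform rep-cubes.
-/

open Set

namespace Q139.Net

/-- a cell, given by its lower left corner -/
abbrev Cell := ℤ × ℤ

abbrev E2 := EuclideanSpace ℝ (Fin 2)
abbrev E3 := EuclideanSpace ℝ (Fin 3)

/-- the closed unit square of a cell -/
def sq (c : Cell) : Set E2 :=
  {p | (c.1 : ℝ) ≤ p 0 ∧ p 0 ≤ c.1 + 1 ∧ (c.2 : ℝ) ≤ p 1 ∧ p 1 ≤ c.2 + 1}

/-- the plane figure of a finite set of cells -/
def region (P : Finset Cell) : Set E2 := ⋃ c ∈ P, sq c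

/-- two cells share an edge -/
def Adj (a b : Cell) : Prop := (a.1 = b.1 ∧ |a.2 - b.2| = 1) ∨ (a.2 = b.2 ∧ |a.1 - b.1| = 1)

/-- edge-connected finite sets of cells -/
def EdgeConnected (P : Finset Cell) : Prop :=
  P.Nonempty ∧ ∀ a ∈ P, ∀ b ∈ P, Relation.ReflTransGen (fun x y => Adj x y ∧ y ∈ P) a b

/-- `BEdge P a b`: the unit segment from the lattice point `a` to the lattice point `b` is a
boundary edge of `P`, with `P` on its left. -/
inductive BEdge (P : Finset Cell) : ℤ × ℤ → ℤ × ℤ → Prop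
  | bottom (x y : ℤ) : (x, y) ∈ P → (x, y - 1) ∉ P → BEdge P (x, y) (x + 1, y)
  | right (x y : ℤ) : (x, y) ∈ P → (x + 1, y) ∉ P → BEdge P (x + 1, y) (x + 1, y + 1)
  | top (x y : ℤ) : (x, y) ∈ P → (x, y + 1) ∉ P → BEdge P (x + 1, y + 1) (x, y + 1)
  | left (x y : ℤ) : (x, y) ∈ P → (x - 1, y) ∉ P → BEdge P (x, y + 1) (x, y)

/-- the boundary is one simple closed curve: the boundary edges are the edges of one closed polygon
with pairwise distinct vertices -/
def SimpleBoundary (P : Finset Cell) : Prop :=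
  ∃ cyc : List (ℤ × ℤ), cyc.Nodup ∧ ∀ a b, BEdge P a b ↔ (a, b) ∈ cyc.zip (cyc.rotate 1)

/-- polyominoes (without holes) -/
def IsPolyomino (P : Finset Cell) : Prop := EdgeConnected P ∧ SimpleBoundary P

/-- the surface of the cube `[0, s]^3` -/
def surface (s : ℝ) : Set E3 := {w | (∀ i, 0 ≤ w i ∧ w i ≤ s) ∧ ∃ i, w i = 0 ∨ w i = s}

/-- The plane figure `R` is a net of the cube of edge `s`: it folds onto the surface of the cube.
There is a continuous map of `R` onto the surface that is injective on the interior of `R` and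
isometric on each of finitely many compact convex sets that make up `R`. -/
def IsNet (R : Set E2) (s : ℝ) : Prop :=
  ∃ φ : E2 → E3, ContinuousOn φ R ∧ φ '' R = surface s ∧ InjOn φ (interior R) ∧
    ∃ (n : ℕ) (Q : Fin n → Set E2), (∀ i, IsCompact (Q i) ∧ Convex ℝ (Q i)) ∧ R = ⋃ i, Q i ∧
      ∀ i, ∀ x ∈ Q i, ∀ y ∈ Q i, dist (φ x) (φ y) = dist x y

/-- the plane figures of `A` and `B` are congruent -/
def Congruent (A B : Finset Cell) : Prop := ∃ g : E2 ≃ᵢ E2, region B = g '' region A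

/-- `P` is a uniform rep-cube of order `k` for `N`: it is a net of the cube of edge `√k` and it is
partitioned into `k` polyominoes congruent to `N`, each of which is a net of the unit cube. -/
def IsUniformRepCube (N : Finset Cell) (k : ℕ) (P : Finset Cell) : Prop :=
  2 ≤ k ∧ IsPolyomino P ∧ IsNet (region P) (√(k : ℝ)) ∧
    ∃ Q : Fin k → Finset Cell, (∀ i j, i ≠ j → Disjoint (Q i) (Q j)) ∧
      P = Finset.univ.biUnion Q ∧
      ∀ i, IsPolyomino (Q i) ∧ Congruent N (Q i) ∧ IsNet (region (Q i)) 1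

/-- The eleven edge nets of the unit cube. -/
def edgeNets : List (Finset Cell) :=
  [{(0, 0), (0, 1), (0, 2), (1, 1), (2, 1), (3, 1)},
   {(0, 0), (0, 1), (0, 2), (1, 2), (1, 3), (1, 4)},
   {(0, 0), (0, 1), (1, 1), (1, 2), (1, 3), (2, 1)},
   {(0, 0), (0, 1), (1, 1), (1, 2), (1, 3), (2, 2)},
   {(0, 0), (0, 1), (1, 1), (1, 2), (1, 3), (2, 3)},
   {(0, 0), (0, 1), (1, 1), (1, 2), (2, 1), (3, 1)},
   {(0, 0), (0, 1), (1, 1), (1, 2), (2, 2), (2, 3)},
   {(0, 0), (0, 1), (1, 1), (2, 1), (2, 2), (3, 1)},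
   {(0, 0), (0, 1), (1, 1), (2, 1), (3, 1), (3, 2)},
   {(0, 1), (1, 0), (1, 1), (1, 2), (1, 3), (2, 1)},
   {(0, 1), (1, 0), (1, 1), (1, 2), (1, 3), (2, 2)}]

/-! ### frames -/

abbrev T3 := ℤ × ℤ × ℤ

/-- placement of a cell on the surface: corner `o`, images `u`, `v` of the two unit directions -/
structure Fr where
  c : Cell
  o : T3
  u : T3
  v : T3
  deriving DecidableEq

def T3.co (t : T3) (i : Fin 3) : ℤ := ![t.1, t.2.1, t.2.2] i

/-- the affine map of a frame -/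
noncomputable def aff (f : Fr) (p : E2) : E3 :=
  WithLp.toLp 2 fun i => (f.o.co i : ℝ) + (p 0 - f.c.1) * f.u.co i + (p 1 - f.c.2) * f.v.co i

theorem aff_apply (f : Fr) (p : E2) (i : Fin 3) :
    aff f p i = (f.o.co i : ℝ) + (p 0 - f.c.1) * f.u.co i + (p 1 - f.c.2) * f.v.co i := rfl

theorem IsNet.image {R : Set E2} {s : ℝ} (h : IsNet R s) (g : E2 ≃ᵢ E2) : IsNet (g '' R) s := by
  obtain ⟨φ, h1, h2, h3, n, Q, h4, h5, h6⟩ := h
  refine ⟨φ ∘ g.symm, ?_, ?_, ?_, n, fun i => g '' Q i, ?_, ?_, ?_⟩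
  · refine h1.comp g.symm.continuous.continuousOn ?_
    rintro _ ⟨x, hx, rfl⟩
    simpa using hx
  · have h7 : g.symm '' (g '' R) = R := by rw [image_image]; simp
    rw [image_comp, h7, h2]
  · have hi : interior (g '' R) = g '' interior R := (g.toHomeomorph.image_interior R).symm
    rw [hi]
    rintro _ ⟨x, hx, rfl⟩ _ ⟨y, hy, rfl⟩ hxy
    simp only [Function.comp_apply, IsometryEquiv.symm_apply_apply] at hxy
    rw [h3 hx hy hxy]
  · intro i
    refine ⟨(h4 i).1.image g.continuous, ?_⟩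
    have := (h4 i).2.affine_image (g.toRealAffineIsometryEquiv.toAffineEquiv.toAffineMap : E2 →ᵃ[ℝ] E2)
    exact this
  · rw [h5, image_iUnion]
  · rintro i _ ⟨x, hx, rfl⟩ _ ⟨y, hy, rfl⟩
    simp only [Function.comp_apply, IsometryEquiv.symm_apply_apply, g.dist_eq]
    exact h6 i x hx y hy

end Q139.Net
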