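import Pool.Agent.Q139.Net.Data

/-!
Edge nets: rolling description and classification.
-/

open Set

namespace Q139.Net

/-- placement of a cell on a face of the unit cube: `u`, `v` are the images of the two unit
directions of the plane, `n` is the outer normal of the face. -/
structure Pos where
  u : T3
  v : T3
  n : T3
  deriving DecidableEq

def negT (a : T3) : T3 := (-a.1, -a.2.1, -a.2.2)

/-- `u`, `v`, `n` are pairwise orthogonal vectors of the form `±e_i` -/
def Pos.Ok (p : Pos) : Prop :=
  p.u ∈ units ∧ p.v ∈ units ∧ p.n ∈ units ∧ dotT p.u p.v = 0 ∧ dotT p.u p.n = 0 ∧ dotT p.v p.n = 0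

/-- the neighbouring face over the right edge -/
def Pos.right (p : Pos) : Pos := ⟨negT p.n, p.v, p.u⟩
/-- the neighbouring face over the upper edge -/
def Pos.up (p : Pos) : Pos := ⟨p.u, negT p.n, p.v⟩
def Pos.left (p : Pos) : Pos := ⟨p.n, p.v, negT p.u⟩
def Pos.down (p : Pos) : Pos := ⟨p.u, p.n, negT p.v⟩

/-- `N` is an edge net of the unit cube: six cells, joined edge to edge, that can be placed on the
six faces of the cube such that cells with a common edge go to faces meeting in the corresponding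
edge. -/
def IsEdgeNet (N : Finset Cell) : Prop :=
  N.card = 6 ∧ EdgeConnected N ∧ ∃ F : Cell → Pos, (∀ c ∈ N, (F c).Ok) ∧
    (∀ x y : ℤ, (x, y) ∈ N → (x + 1, y) ∈ N → F (x + 1, y) = (F (x, y)).right) ∧
    (∀ x y : ℤ, (x, y) ∈ N → (x, y + 1) ∈ N → F (x, y + 1) = (F (x, y)).up) ∧
    Set.InjOn (fun c => (F c).n) N

theorem negT_negT (a : T3) : negT (negT a) = a := by simp [negT]

theorem Pos.left_right (p : Pos) : p.right.left = p := by
  cases p; simp [Pos.right, Pos.left, negT_negT]

theorem Pos.down_up (p : Pos) : p.up.down = p := by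
  cases p; simp [Pos.up, Pos.down, negT_negT]

/-! ### growth -/

def nbrs (s : Cell × Pos) : List (Cell × Pos) :=
  [((s.1.1 + 1, s.1.2), s.2.right), ((s.1.1 - 1, s.1.2), s.2.left),
   ((s.1.1, s.1.2 + 1), s.2.up), ((s.1.1, s.1.2 - 1), s.2.down)]

def lexpos (c : Cell) : Bool := decide (0 < c.1) || (decide (c.1 = 0) && decide (0 ≤ c.2))

def okNew (A : List (Cell × Pos)) (s : Cell × Pos) : Bool :=
  lexpos s.1 && A.all fun a => !(a.1 == s.1) && !(a.2.n == s.2.n)

def stdPos : Pos := ⟨(1, 0, 0), (0, 1, 0), (0, 0, 1)⟩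

def level : ℕ → List (List (Cell × Pos))
  | 0 => [[((0, 0), stdPos)]]
  | k + 1 => (level k).flatMap fun A => ((A.flatMap nbrs).filter (okNew A)).map fun s => s :: A

/-! ### moving the frame -/

def mulM (q : Pos) (x : T3) : T3 := (dotT x q.u, dotT x q.v, dotT x q.n)

def Pos.mv (q p : Pos) : Pos := ⟨mulM q p.u, mulM q p.v, mulM q p.n⟩

theorem mulM_negT (q : Pos) (x : T3) : mulM q (negT x) = negT (mulM q x) := by
  simp only [mulM, negT, dotT, Prod.mk.injEq]
  refine ⟨by ring, by ring, by ring⟩

theorem mv_right (q p : Pos) : q.mv p.right = (q.mv p).right := by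
  simp [Pos.mv, Pos.right, mulM_negT]

theorem mv_up (q p : Pos) : q.mv p.up = (q.mv p).up := by
  simp [Pos.mv, Pos.up, mulM_negT]

theorem mv_self_aux : ∀ u ∈ units, ∀ v ∈ units, ∀ n ∈ units, dotT u v = 0 → dotT u n = 0 →
    dotT v n = 0 → Pos.mv ⟨u, v, n⟩ ⟨u, v, n⟩ = stdPos := by
  decide +kernel

theorem mv_self {q : Pos} (h : q.Ok) : q.mv q = stdPos := by
  obtain ⟨u, v, n⟩ := q
  obtain ⟨h1, h2, h3, h4, h5, h6⟩ := h
  exact mv_self_aux u h1 v h2 n h3 h4 h5 h6

theorem mulM_inj_aux : ∀ u ∈ units, ∀ v ∈ units, ∀ n ∈ units, dotT u v = 0 → dotT u n = 0 →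
    dotT v n = 0 → ∀ x ∈ units, ∀ y ∈ units, mulM ⟨u, v, n⟩ x = mulM ⟨u, v, n⟩ y → x = y := by
  decide +kernel

theorem mulM_inj {q : Pos} (h : q.Ok) {x y : T3} (hx : x ∈ units) (hy : y ∈ units)
    (hxy : mulM q x = mulM q y) : x = y := by
  obtain ⟨u, v, n⟩ := q
  obtain ⟨h1, h2, h3, h4, h5, h6⟩ := h
  exact mulM_inj_aux u h1 v h2 n h3 h4 h5 h6 x hx y hy hxy

/-! ### the lists of cells of the eleven nets -/

def netList : List (List Cell) :=
  [cert0.N, cert1.N, cert2.N, cert3.N, cert4.N, cert5.N, cert6.N, cert7.N, cert8.N, cert9.N,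
   cert10.N]

def table : List (ℕ × Bool × Bool × Bool × Cell) :=
  [(0, false, false, false, (0, 0)),
   (0, false, true, false, (4, -1)),
   (0, true, false, false, (0, 0)),
   (0, true, false, true, (0, 1)),
   (1, false, false, false, (0, 0)),
   (1, false, false, true, (0, 3)),
   (1, true, false, false, (0, 0)),
   (1, true, false, true, (0, 1)),
   (2, false, false, false, (0, 0)),
   (2, false, false, true, (0, 2)),
   (2, false, true, false, (3, -1)),
   (2, false, true, true, (3, 2)),
   (2, true, false, false, (0, 0)),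
   (2, true, false, true, (0, 1)),
   (2, true, true, false, (4, -1)),
   (2, true, true, true, (4, 2)),
   (3, false, false, false, (0, 0)),
   (3, false, false, true, (0, 2)),
   (3, false, true, false, (3, -2)),
   (3, false, true, true, (3, 3)),
   (3, true, false, false, (0, 0)),
   (3, true, false, true, (0, 1)),
   (3, true, true, false, (4, -1)),
   (3, true, true, true, (4, 2)),
   (4, false, false, false, (0, 0)),
   (4, false, false, true, (0, 2)),
   (4, false, true, false, (3, -3)),
   (4, false, true, true, (3, 4)),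
   (4, true, false, false, (0, 0)),
   (4, true, false, true, (0, 1)),
   (4, true, true, false, (4, -1)),
   (4, true, true, true, (4, 3)),
   (5, false, false, false, (0, 0)),
   (5, false, false, true, (0, 2)),
   (5, false, true, false, (4, -1)),
   (5, false, true, true, (4, 2)),
   (5, true, false, false, (0, 0)),
   (5, true, false, true, (0, 1)),
   (5, true, true, false, (3, -1)),
   (5, true, true, true, (3, 2)),
   (6, false, false, false, (0, 0)),
   (6, false, false, true, (0, 2)),
   (6, true, false, false, (0, 0)),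
   (6, true, false, true, (0, 1)),
   (7, false, false, false, (0, 0)),
   (7, false, false, true, (0, 2)),
   (7, false, true, false, (4, -1)),
   (7, false, true, true, (4, 2)),
   (7, true, false, false, (0, 0)),
   (7, true, false, true, (0, 1)),
   (7, true, true, false, (3, -2)),
   (7, true, true, true, (3, 3)),
   (8, false, false, false, (0, 0)),
   (8, false, false, true, (0, 2)),
   (8, true, false, false, (0, 0)),
   (8, true, false, true, (0, 1)),
   (9, false, false, false, (0, -1)),
   (9, false, false, true, (0, 2)),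
   (9, true, false, false, (0, -1)),
   (9, true, true, false, (4, -1)),
   (10, false, false, false, (0, -1)),
   (10, false, false, true, (0, 2)),
   (10, true, false, false, (0, -1)),
   (10, true, false, true, (0, 2))]

theorem level5_check : (level 5).all (fun A => table.any fun e =>
    sameSet (A.map Prod.fst) ((netList.getD e.1 []).map
      (trc e.2.1 e.2.2.1 e.2.2.2.1 e.2.2.2.2))) = true := by
  decide +kernel

/-- crossing edge of a path -/
theorem exists_crossing {α : Type*} {R : α → α → Prop} {S : Set α} {a b : α}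
    (h : Relation.ReflTransGen R a b) (ha : a ∈ S) (hb : b ∉ S) :
    ∃ x y, R x y ∧ x ∈ S ∧ y ∉ S := by
  induction h with
  | refl => exact absurd ha hb
  | tail _ e ih =>
    rename_i c d _
    by_cases hc : c ∈ S
    · exact ⟨c, d, e, hc, hb⟩
    · exact ih hc

theorem grow {N : Finset Cell} {F : Cell → Pos} (h6 : N.card = 6) (hc : EdgeConnected N)
    (hok : ∀ c ∈ N, (F c).Ok)
    (hr : ∀ x y : ℤ, (x, y) ∈ N → (x + 1, y) ∈ N → F (x + 1, y) = (F (x, y)).right)
    (hu : ∀ x y : ℤ, (x, y) ∈ N → (x, y + 1) ∈ N → F (x, y + 1) = (F (x, y)).up)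
    (hinj : Set.InjOn (fun c => (F c).n) N) {c₀ : Cell} (h0 : c₀ ∈ N)
    (hmin : ∀ c ∈ N, lexpos (c.1 - c₀.1, c.2 - c₀.2) = true) :
    ∀ k, k < 6 → ∃ A ∈ level k, A.length = k + 1 ∧ (A.map Prod.fst).Nodup ∧
      ∀ s ∈ A, (s.1.1 + c₀.1, s.1.2 + c₀.2) ∈ N ∧
        (F c₀).mv (F (s.1.1 + c₀.1, s.1.2 + c₀.2)) = s.2 := by
  intro k
  induction k with
  | zero =>
    intro _
    refine ⟨_, List.mem_singleton.2 rfl, rfl, by simp, ?_⟩
    intro s hs
    rw [List.mem_singleton] at hs
    subst hs
    simp only [zero_add]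
    exact ⟨h0, mv_self (hok _ h0)⟩
  | succ k ih =>
    intro hk
    obtain ⟨A, hA, hlen, hnd, hAs⟩ := ih (by omega)
    set S : Set Cell := {c | (c.1 - c₀.1, c.2 - c₀.2) ∈ A.map Prod.fst} with hS
    -- a cell outside
    obtain ⟨d, hdN, hdS⟩ : ∃ d ∈ N, d ∉ S := by
      by_contra hcon
      push Not at hcon
      have hsub : N ⊆ (A.map Prod.fst).toFinset.image (fun c => (c.1 + c₀.1, c.2 + c₀.2)) := by
        intro d hd
        rw [Finset.mem_image]
        exact ⟨(d.1 - c₀.1, d.2 - c₀.2), List.mem_toFinset.2 (hcon d hd), by simp⟩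
      have h1 := Finset.card_le_card hsub
      have h2 : ((A.map Prod.fst).toFinset.image (fun c => (c.1 + c₀.1, c.2 + c₀.2))).card ≤ k + 1 := by
        refine Finset.card_image_le.trans ?_
        refine (List.toFinset_card_le _).trans ?_
        rw [List.length_map, hlen]
      omega
    obtain ⟨a, haA⟩ : ∃ a, a ∈ A := List.exists_mem_of_length_pos (by omega)
    have haN := (hAs a haA).1
    have haS : ((a.1.1 + c₀.1, a.1.2 + c₀.2) : Cell) ∈ S := by
      rw [hS, Set.mem_ofPred_eq]
      simp only [add_sub_cancel_right]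
      exact List.mem_map.2 ⟨a, haA, rfl⟩
    -- crossing within N
    have hpath := hc.2 _ haN d hdN
    have hcross : ∃ x y, (Adj x y ∧ y ∈ N) ∧ x ∈ S ∧ y ∉ S := exists_crossing hpath haS hdS
    obtain ⟨x, y, ⟨hadj, hyN⟩, hxS, hyS⟩ := hcross
    rw [hS, Set.mem_ofPred_eq, List.mem_map] at hxS
    obtain ⟨s, hsA, hsx⟩ := hxS
    obtain ⟨hsN, hsF⟩ := hAs s hsA
    have hx1 : s.1.1 + c₀.1 = x.1 := by rw [hsx]; ring
    have hx2 : s.1.2 + c₀.2 = x.2 := by rw [hsx]; ring
    rw [hx1, hx2] at hsN hsF
    -- the new state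
    set s' : Cell × Pos := ((y.1 - c₀.1, y.2 - c₀.2), (F c₀).mv (F y)) with hs'
    have hnb : s' ∈ nbrs s := by
      have e1 : s.1.1 = x.1 - c₀.1 := by omega
      have e2 : s.1.2 = x.2 - c₀.2 := by omega
      obtain ⟨x1, x2⟩ := x
      obtain ⟨y1, y2⟩ := y
      simp only at e1 e2 hsF hsN hs' hyN
      simp only [nbrs, List.mem_cons, List.not_mem_nil, or_false, hs', Prod.mk.injEq]
      rcases hadj with ⟨h1, h2⟩ | ⟨h1, h2⟩
      · simp only at h1 h2
        subst h1
        rcases (abs_eq (zero_le_one' ℤ)).1 h2 with h2 | h2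
        · -- y2 = x2 - 1
          have e3 : x2 = y2 + 1 := by omega
          subst e3
          right; right; right
          refine ⟨⟨by omega, by omega⟩, ?_⟩
          rw [← hsF, hu _ _ hyN hsN, mv_up, Pos.down_up]
        · have e3 : y2 = x2 + 1 := by omega
          subst e3
          right; right; left
          refine ⟨⟨by omega, by omega⟩, ?_⟩
          rw [← hsF, hu _ _ hsN hyN, mv_up]
      · simp only at h1 h2
        subst h1
        rcases (abs_eq (zero_le_one' ℤ)).1 h2 with h2 | h2
        · have e3 : x1 = y1 + 1 := by omega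
          subst e3
          right; left
          refine ⟨⟨by omega, by omega⟩, ?_⟩
          rw [← hsF, hr _ _ hyN hsN, mv_right, Pos.left_right]
        · have e3 : y1 = x1 + 1 := by omega
          subst e3
          left
          refine ⟨⟨by omega, by omega⟩, ?_⟩
          rw [← hsF, hr _ _ hsN hyN, mv_right]
    have hyA : ∀ a ∈ A, a.1 ≠ s'.1 := by
      intro a ha heq
      exact hyS (List.mem_map.2 ⟨a, ha, heq⟩)
    have hok' : okNew A s' = true := by
      simp only [okNew, Bool.and_eq_true, List.all_eq_true, Bool.not_eq_true', beq_eq_false_iff_ne]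
      refine ⟨hmin y hyN, fun a ha => ⟨hyA a ha, ?_⟩⟩
      obtain ⟨haN', haF⟩ := hAs a ha
      intro heq
      have e1 : a.2.n = mulM (F c₀) (F (a.1.1 + c₀.1, a.1.2 + c₀.2)).n := by rw [← haF]; rfl
      have e2 : s'.2.n = mulM (F c₀) (F y).n := rfl
      rw [e1, e2] at heq
      have e3 := mulM_inj (hok _ h0) (hok _ haN').2.2.1 (hok _ hyN).2.2.1 heq
      have e4 := hinj haN' hyN e3
      apply hyA a ha
      rw [hs']
      simp only
      rw [← e4]
      simp
    refine ⟨s' :: A, ?_, by simp [hlen], ?_, ?_⟩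
    · rw [level, List.mem_flatMap]
      refine ⟨A, hA, List.mem_map.2 ⟨s', ?_, rfl⟩⟩
      rw [List.mem_filter]
      exact ⟨List.mem_flatMap.2 ⟨s, hsA, hnb⟩, hok'⟩
    · rw [List.map_cons, List.nodup_cons]
      refine ⟨?_, hnd⟩
      rw [List.mem_map]
      rintro ⟨a, ha, heq⟩
      exact hyA a ha heq
    · intro t ht
      rw [List.mem_cons] at ht
      rcases ht with rfl | ht
      · have : ((s'.1.1 + c₀.1, s'.1.2 + c₀.2) : Cell) = y := by rw [hs']; simp
        rw [this]
        exact ⟨hyN, rfl⟩
      · exact hAs t ht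

/-- **Classification**: every edge net is congruent to one of the eleven. -/
theorem IsEdgeNet.classify {N : Finset Cell} (h : IsEdgeNet N) :
    ∃ M ∈ netList, ∃ s1 s2 s3 t, N = (M.map (trc s1 s2 s3 t)).toFinset := by
  obtain ⟨h6, hc, F, hok, hr, hu, hinj⟩ := h
  obtain ⟨c₀, h0, hmin⟩ := N.exists_min_image (fun c => toLex c) hc.1
  have hmin' : ∀ c ∈ N, lexpos (c.1 - c₀.1, c.2 - c₀.2) = true := by
    intro c hc
    have h1 := hmin c hc
    rw [Prod.Lex.le_iff] at h1
    simp only [ofLex_toLex] at h1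
    simp only [lexpos, Bool.or_eq_true, Bool.and_eq_true, decide_eq_true_eq]
    rcases h1 with h1 | ⟨h1, h2⟩
    · left; omega
    · right; constructor <;> omega
  obtain ⟨A, hA, hlen, hnd, hAs⟩ := grow h6 hc hok hr hu hinj h0 hmin' 5 (by norm_num)
  have hch := level5_check
  rw [List.all_eq_true] at hch
  have h1 := hch A hA
  rw [List.any_eq_true] at h1
  obtain ⟨⟨i, s1, s2, s3, t⟩, he, hsame⟩ := h1
  simp only at hsame
  have hset := toFinset_eq_of_sameSet hsame
  have hN : N = (A.map Prod.fst).toFinset.image (fun c => (c.1 + c₀.1, c.2 + c₀.2)) := by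
    symm
    apply Finset.eq_of_subset_of_card_le
    · intro d hd
      rw [Finset.mem_image] at hd
      obtain ⟨c, hc, rfl⟩ := hd
      rw [List.mem_toFinset, List.mem_map] at hc
      obtain ⟨s, hs, rfl⟩ := hc
      exact (hAs s hs).1
    · rw [Finset.card_image_of_injective, List.toFinset_card_of_nodup hnd, List.length_map, hlen, h6]
      intro a b hab
      simp only [Prod.mk.injEq, add_left_inj] at hab
      exact Prod.ext hab.1 hab.2
  have hi : (netList.getD i []) ∈ netList := by
    by_cases hi : i < netList.length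
    · rw [List.getD_eq_getElem _ _ hi]
      exact List.getElem_mem hi
    · exfalso
      rw [List.getD_eq_default _ _ (not_lt.1 hi)] at hset
      have : N = ∅ := by rw [hN, hset]; simp
      rw [this] at h6
      simp at h6
  refine ⟨_, hi, s1, s2, s3, (t.1 + c₀.1, t.2 + c₀.2), ?_⟩
  rw [hN, hset]
  ext c
  simp only [Finset.mem_image, List.mem_toFinset, List.mem_map, trc]
  constructor
  · rintro ⟨_, ⟨d, hd, rfl⟩, rfl⟩
    exact ⟨d, hd, by simp only [add_assoc]⟩
  · rintro ⟨d, hd, rfl⟩
    exact ⟨_, ⟨d, hd, rfl⟩, by simp only [add_assoc]⟩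

end Q139.Net
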