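import Pool.Agent.Q139.Net.EdgeNet

/-!
All edge nets of the cube have a uniform rep-cube.
-/

open Set

namespace Q139.Net

theorem check0 : cert0.check = true := by decide +kernel
theorem check1 : cert1.check = true := by decide +kernel
theorem check2 : cert2.check = true := by decide +kernel
theorem check3 : cert3.check = true := by decide +kernel
theorem check4 : cert4.check = true := by decide +kernel
theorem check5 : cert5.check = true := by decide +kernel
theorem check6 : cert6.check = true := by decide +kernel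
theorem check7 : cert7.check = true := by decide +kernel
theorem check8 : cert8.check = true := by decide +kernel
theorem check9 : cert9.check = true := by decide +kernel
theorem check10 : cert10.check = true := by decide +kernel

def certs : List Cert :=
  [cert0, cert1, cert2, cert3, cert4, cert5, cert6, cert7, cert8, cert9, cert10]

theorem certs_check : ∀ C ∈ certs, C.check = true := by
  simp only [certs, List.mem_cons, List.not_mem_nil, or_false]
  rintro C (rfl | rfl | rfl | rfl | rfl | rfl | rfl | rfl | rfl | rfl | rfl)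
  exacts [check0, check1, check2, check3, check4, check5, check6, check7, check8, check9, check10]

theorem netList_eq : netList = certs.map Cert.N := rfl

theorem edgeNets_eq : edgeNets = certs.map fun C => C.N.toFinset := by decide +kernel

theorem congruent_of_trc {M : List Cell} {s1 s2 s3 : Bool} {t : Cell} :
    Congruent M.toFinset (M.map (trc s1 s2 s3 t)).toFinset := by
  obtain ⟨g, hg⟩ := exists_iso_trc s1 s2 s3 t
  refine ⟨g, ?_⟩
  have e' : (M.map (trc s1 s2 s3 t)).toFinset = M.toFinset.image (trc s1 s2 s3 t) := by ext x; simp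
  rw [e']
  exact region_image _ _ _ hg

theorem Congruent.symm {A B : Finset Cell} (h : Congruent A B) : Congruent B A := by
  obtain ⟨g, hg⟩ := h
  refine ⟨g.symm, ?_⟩
  rw [hg, ← image_comp]
  simp

theorem Congruent.trans {A B C : Finset Cell} (h : Congruent A B) (h' : Congruent B C) :
    Congruent A C := by
  obtain ⟨g, hg⟩ := h
  obtain ⟨k, hk⟩ := h'
  refine ⟨g.trans k, ?_⟩
  rw [hk, hg, ← image_comp]
  rfl

theorem IsUniformRepCube.congr {N N' P : Finset Cell} {k : ℕ} (h : IsUniformRepCube N k P)
    (hc : Congruent N N') : IsUniformRepCube N' k P := by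
  obtain ⟨h1, h2, h3, Q, h4, h5, h6⟩ := h
  exact ⟨h1, h2, h3, Q, h4, h5, fun i => ⟨(h6 i).1, hc.symm.trans (h6 i).2.1, (h6 i).2.2⟩⟩

/-! ### the eleven are edge nets -/

def posOf (f : Fr) : Pos := ⟨f.u, f.v, addT (keyOpen f) (-1, -1, -1)⟩

def enCheck (L : List Fr) : Bool :=
  (L.all fun f => units.contains f.u && units.contains f.v && units.contains (posOf f).n &&
    (dotT f.u f.v == 0) && (dotT f.u (posOf f).n == 0) && (dotT f.v (posOf f).n == 0)) &&
  L.all fun f => L.all fun g =>
    (!(g.c == (f.c.1 + 1, f.c.2)) || posOf g == (posOf f).right) &&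
    (!(g.c == (f.c.1, f.c.2 + 1)) || posOf g == (posOf f).up) &&
    (g == f || !((posOf g).n == (posOf f).n)) && (g == f || !(g.c == f.c))

theorem isEdgeNet_of_check {L : List Fr} {l : List Cell} (h : enCheck L = true)
    (hs : sameSet (L.map Fr.c) l = true) (h0 : (!l.isEmpty) = true) (hc : conn l = true)
    (h6 : l.toFinset.card = 6) : IsEdgeNet l.toFinset := by
  simp only [enCheck, Bool.and_eq_true, List.all_eq_true, Bool.or_eq_true, Bool.not_eq_true',
    beq_eq_false_iff_ne, beq_iff_eq, List.contains_eq_mem, decide_eq_true_eq] at h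
  obtain ⟨hok, hpair⟩ := h
  set F : Cell → Pos := fun c => ((L.find? fun f => f.c == c).map posOf).getD stdPos with hF
  have hFe : ∀ f ∈ L, F f.c = posOf f := by
    intro f hf
    have hsome : (L.find? fun g => g.c == f.c).isSome := by
      rw [List.find?_isSome]
      exact ⟨f, hf, by simp⟩
    obtain ⟨g, hg⟩ := Option.isSome_iff_exists.1 hsome
    have hgL := List.mem_of_find?_eq_some hg
    have hgc : g.c = f.c := by simpa using List.find?_some hg
    have hgf : g = f := by
      rcases (hpair f hf g hgL).2 with h | h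
      · exact h
      · exact absurd hgc h
    show ((L.find? fun g => g.c == f.c).map posOf).getD stdPos = posOf f
    rw [hg, hgf]
    rfl
  have hset := toFinset_eq_of_sameSet hs
  have hmem : ∀ c ∈ l.toFinset, ∃ f ∈ L, f.c = c := by
    intro c hc
    rw [← hset, List.mem_toFinset, List.mem_map] at hc
    exact hc
  refine ⟨h6, edgeConnected_of_conn (by simpa using h0) hc, F, ?_, ?_, ?_, ?_⟩
  · intro c hc
    obtain ⟨f, hf, rfl⟩ := hmem c hc
    rw [hFe f hf]
    obtain ⟨⟨⟨⟨⟨a1, a2⟩, a3⟩, a4⟩, a5⟩, a6⟩ := hok f hf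
    exact ⟨a1, a2, a3, a4, a5, a6⟩
  · intro x y hx hy
    obtain ⟨f, hf, hfc⟩ := hmem _ hx
    obtain ⟨g, hg, hgc⟩ := hmem _ hy
    rw [← hfc, ← hgc, hFe f hf, hFe g hg]
    rcases (hpair f hf g hg).1.1.1 with h | h
    · exact absurd (by rw [hgc, hfc]) h
    · exact h
  · intro x y hx hy
    obtain ⟨f, hf, hfc⟩ := hmem _ hx
    obtain ⟨g, hg, hgc⟩ := hmem _ hy
    rw [← hfc, ← hgc, hFe f hf, hFe g hg]
    rcases (hpair f hf g hg).1.1.2 with h | h
    · exact absurd (by rw [hgc, hfc]) h
    · exact h
  · intro x hx y hy hxy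
    obtain ⟨f, hf, rfl⟩ := hmem _ hx
    obtain ⟨g, hg, rfl⟩ := hmem _ hy
    simp only at hxy
    rw [hFe f hf, hFe g hg] at hxy
    rcases (hpair f hf g hg).1.2 with h | h
    · rw [h]
    · exact absurd hxy.symm h

theorem certs_en : certs.all (fun C => enCheck C.Nfr && sameSet (C.Nfr.map Fr.c) C.N &&
    !C.N.isEmpty && conn C.N && C.N.toFinset.card == 6) = true := by
  decide +kernel

theorem edgeNets_isEdgeNet : ∀ N ∈ edgeNets, IsEdgeNet N := by
  intro N hN
  rw [edgeNets_eq, List.mem_map] at hN
  obtain ⟨C, hC, rfl⟩ := hN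
  have h := certs_en
  rw [List.all_eq_true] at h
  have h1 := h C hC
  simp only [Bool.and_eq_true] at h1
  obtain ⟨⟨⟨⟨h1, h2⟩, h3⟩, h4⟩, h5⟩ := h1
  exact isEdgeNet_of_check h1 h2 h3 h4 (by simpa using h5)

theorem classification {N : Finset Cell} (h : IsEdgeNet N) : ∃ M ∈ edgeNets, Congruent M N := by
  obtain ⟨M, hM, s1, s2, s3, t, rfl⟩ := h.classify
  rw [netList_eq, List.mem_map] at hM
  obtain ⟨C, hC, rfl⟩ := hM
  refine ⟨C.N.toFinset, ?_, congruent_of_trc⟩
  rw [edgeNets_eq, List.mem_map]
  exact ⟨C, hC, rfl⟩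

/-- **Every edge net of the unit cube has a uniform rep-cube.** -/
theorem main {N : Finset Cell} (h : IsEdgeNet N) : ∃ k P, IsUniformRepCube N k P := by
  obtain ⟨M, hM, hc⟩ := classification h
  rw [edgeNets_eq, List.mem_map] at hM
  obtain ⟨C, hC, rfl⟩ := hM
  obtain ⟨-, -, k, P, hP⟩ := C.sound (certs_check C hC)
  exact ⟨k, P, hP.congr hc⟩

end Q139.Net
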