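import Pool.Agent.Q139.Net.Defs

/-!
Soundness of the folding certificate.
-/

open Set

namespace Q139.Net

def addT (a b : T3) : T3 := (a.1 + b.1, a.2.1 + b.2.1, a.2.2 + b.2.2)

theorem co_addT (a b : T3) (i : Fin 3) : (addT a b).co i = a.co i + b.co i := by
  fin_cases i <;> rfl

theorem T3.ext' {a b : T3} (h : ∀ i, a.co i = b.co i) : a = b := by
  obtain ⟨a1, a2, a3⟩ := a
  obtain ⟨b1, b2, b3⟩ := b
  have h0 := h 0
  have h1 := h 1
  have h2 := h 2
  simp only [T3.co, Matrix.cons_val_zero, Matrix.cons_val_one, Matrix.cons_val] at h0 h1 h2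
  rw [h0, h1, h2]

def units : List T3 := [(1, 0, 0), (-1, 0, 0), (0, 1, 0), (0, -1, 0), (0, 0, 1), (0, 0, -1)]

def dotT (a b : T3) : ℤ := a.1 * b.1 + a.2.1 * b.2.1 + a.2.2 * b.2.2

def okFrame (f : Fr) : Bool := units.contains f.u && units.contains f.v && (dotT f.u f.v == 0)

/-- compatibility of neighbouring cells -/
def cons (f g : Fr) : Bool :=
  (!(g.c == f.c) || g == f) &&
  (!(g.c == (f.c.1 + 1, f.c.2)) || (g.v == f.v && g.o == addT f.o f.u)) &&
  (!(g.c == (f.c.1, f.c.2 + 1)) || (g.u == f.u && g.o == addT f.o f.v)) &&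
  (!(g.c == (f.c.1 + 1, f.c.2 + 1)) || g.o == addT (addT f.o f.u) f.v) &&
  (!(g.c == (f.c.1 + 1, f.c.2 - 1)) || addT g.o g.v == addT f.o f.u)

def has (L : List Fr) (c : Cell) : Bool := L.any fun f => f.c == c

/-- doubled centres of the open grid cells that belong to `f` and to the interior -/
def keys (L : List Fr) (f : Fr) : List T3 :=
  let o2 := addT f.o f.o
  let l := has L (f.c.1 - 1, f.c.2)
  let b := has L (f.c.1, f.c.2 - 1)
  addT (addT o2 f.u) f.v ::
    ((if l then [addT o2 f.v] else []) ++ (if b then [addT o2 f.u] else []) ++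
      (if l && b && has L (f.c.1 - 1, f.c.2 - 1) then [o2] else []))

def keyOpen (f : Fr) : T3 := addT (addT (addT f.o f.o) f.u) f.v

def surfKeys (m : ℕ) : List T3 :=
  (List.range m).flatMap fun (a : ℕ) => (List.range m).flatMap fun (b : ℕ) =>
    [(0, 2 * (a : ℤ) + 1, 2 * (b : ℤ) + 1), (2 * (m : ℤ), 2 * (a : ℤ) + 1, 2 * (b : ℤ) + 1),
     (2 * (a : ℤ) + 1, 0, 2 * (b : ℤ) + 1), (2 * (a : ℤ) + 1, 2 * (m : ℤ), 2 * (b : ℤ) + 1),
     (2 * (a : ℤ) + 1, 2 * (b : ℤ) + 1, 0), (2 * (a : ℤ) + 1, 2 * (b : ℤ) + 1, 2 * (m : ℤ))]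

def foldCheck (m : ℕ) (L : List Fr) : Bool :=
  L.all okFrame && (L.all fun f => L.all fun g => cons f g) &&
  (L.all fun f => (surfKeys m).contains (keyOpen f)) &&
  ((surfKeys m).all fun k => L.any fun f => keyOpen f == k) &&
  (L.all fun f => L.all fun g => f == g || (keys L f).all fun k => !(keys L g).contains k)

def cells (L : List Fr) : Finset Cell := (L.map Fr.c).toFinset

theorem mem_cells {L : List Fr} {c : Cell} : c ∈ cells L ↔ ∃ f ∈ L, f.c = c := by
  simp [cells]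

theorem mem_region {L : List Fr} {p : E2} : p ∈ region (cells L) ↔ ∃ f ∈ L, p ∈ sq f.c := by
  simp only [region, mem_iUnion, mem_cells]
  constructor
  · rintro ⟨c, ⟨f, hf, rfl⟩, hp⟩; exact ⟨f, hf, hp⟩
  · rintro ⟨f, hf, hp⟩; exact ⟨f.c, ⟨f, hf, rfl⟩, hp⟩

/-- the 24 frames, coordinatewise -/
theorem okFrame_co {f : Fr} (h : okFrame f = true) :
    (∀ i, (f.u.co i = 0 ∧ f.v.co i = 0) ∨ ((f.u.co i = 1 ∨ f.u.co i = -1) ∧ f.v.co i = 0) ∨
      (f.u.co i = 0 ∧ (f.v.co i = 1 ∨ f.v.co i = -1))) ∧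
    (∃ a b, a ≠ b ∧ (f.u.co a = 1 ∨ f.u.co a = -1) ∧ (∀ i, i ≠ a → f.u.co i = 0) ∧
      (f.v.co b = 1 ∨ f.v.co b = -1) ∧ (∀ i, i ≠ b → f.v.co i = 0)) := by
  obtain ⟨c, o, u, v⟩ := f
  simp only [okFrame, units, List.contains_eq_mem, List.mem_cons, List.not_mem_nil, or_false,
    Bool.and_eq_true, decide_eq_true_eq, beq_iff_eq] at h
  obtain ⟨⟨hu, hv⟩, hd⟩ := h
  rcases hu with rfl | rfl | rfl | rfl | rfl | rfl <;>
  rcases hv with rfl | rfl | rfl | rfl | rfl | rfl <;>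
  first
    | (exfalso; revert hd; decide)
    | (dsimp only
       constructor
       · decide
       · decide)

theorem okFrame_dot {f : Fr} (h : okFrame f = true) :
    dotT f.u f.u = 1 ∧ dotT f.v f.v = 1 ∧ dotT f.u f.v = 0 := by
  obtain ⟨c, o, u, v⟩ := f
  simp only [okFrame, units, List.contains_eq_mem, List.mem_cons, List.not_mem_nil, or_false,
    Bool.and_eq_true, decide_eq_true_eq, beq_iff_eq] at h
  obtain ⟨⟨hu, hv⟩, hd⟩ := h
  refine ⟨?_, ?_, hd⟩
  · rcases hu with rfl | rfl | rfl | rfl | rfl | rfl <;> rfl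
  · rcases hv with rfl | rfl | rfl | rfl | rfl | rfl <;> rfl

theorem aff_dist {f : Fr} (h : okFrame f = true) (p q : E2) :
    dist (aff f p) (aff f q) = dist p q := by
  obtain ⟨h1, h2, h3⟩ := okFrame_dot h
  rw [EuclideanSpace.dist_eq, EuclideanSpace.dist_eq]
  congr 1
  simp only [Fin.sum_univ_three, Fin.sum_univ_two, Real.dist_eq, sq_abs, aff_apply]
  have e1 : ((f.u.co 0 : ℝ)) ^ 2 + (f.u.co 1 : ℝ) ^ 2 + (f.u.co 2 : ℝ) ^ 2 = 1 := by
    have : f.u.co 0 ^ 2 + f.u.co 1 ^ 2 + f.u.co 2 ^ 2 = 1 := by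
      rw [← h1]; simp only [T3.co, dotT, Matrix.cons_val_zero, Matrix.cons_val_one, Matrix.cons_val, pow_two]
    exact_mod_cast this
  have e2 : ((f.v.co 0 : ℝ)) ^ 2 + (f.v.co 1 : ℝ) ^ 2 + (f.v.co 2 : ℝ) ^ 2 = 1 := by
    have : f.v.co 0 ^ 2 + f.v.co 1 ^ 2 + f.v.co 2 ^ 2 = 1 := by
      rw [← h2]; simp only [T3.co, dotT, Matrix.cons_val_zero, Matrix.cons_val_one, Matrix.cons_val]
      ring
    exact_mod_cast this
  have e3 : (f.u.co 0 : ℝ) * f.v.co 0 + (f.u.co 1 : ℝ) * f.v.co 1 + (f.u.co 2 : ℝ) * f.v.co 2 = 0 := by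
    have : f.u.co 0 * f.v.co 0 + f.u.co 1 * f.v.co 1 + f.u.co 2 * f.v.co 2 = 0 := by
      rw [← h3]; simp only [T3.co, dotT, Matrix.cons_val_zero, Matrix.cons_val_one, Matrix.cons_val]
    exact_mod_cast this
  linear_combination (p 0 - q 0) ^ 2 * e1 + (p 1 - q 1) ^ 2 * e2 +
    2 * (p 0 - q 0) * (p 1 - q 1) * e3

theorem continuous_aff (f : Fr) : Continuous (aff f) := by
  refine (PiLp.continuous_toLp 2 _).comp (continuous_pi fun i => ?_)
  fun_prop

/-- intersecting cells are neighbours -/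
theorem near {c d : Cell} {p : E2} (hc : p ∈ sq c) (hd : p ∈ sq d) :
    (d.1 = c.1 - 1 ∨ d.1 = c.1 ∨ d.1 = c.1 + 1) ∧ (d.2 = c.2 - 1 ∨ d.2 = c.2 ∨ d.2 = c.2 + 1) := by
  obtain ⟨c1, c2, c3, c4⟩ := hc
  obtain ⟨d1, d2, d3, d4⟩ := hd
  have e1 : (d.1 : ℝ) ≤ (c.1 + 1 : ℤ) := by push_cast; linarith
  have e2 : (c.1 : ℝ) ≤ (d.1 + 1 : ℤ) := by push_cast; linarith
  have e3 : (d.2 : ℝ) ≤ (c.2 + 1 : ℤ) := by push_cast; linarith
  have e4 : (c.2 : ℝ) ≤ (d.2 + 1 : ℤ) := by push_cast; linarith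
  rw [Int.cast_le] at e1 e2 e3 e4
  omega

theorem cons_spec {f g : Fr} (h : cons f g = true) :
    (g.c = f.c → g = f) ∧
    (g.c = (f.c.1 + 1, f.c.2) → g.v = f.v ∧ g.o = addT f.o f.u) ∧
    (g.c = (f.c.1, f.c.2 + 1) → g.u = f.u ∧ g.o = addT f.o f.v) ∧
    (g.c = (f.c.1 + 1, f.c.2 + 1) → g.o = addT (addT f.o f.u) f.v) ∧
    (g.c = (f.c.1 + 1, f.c.2 - 1) → addT g.o g.v = addT f.o f.u) := by
  simp only [cons, Bool.and_eq_true, Bool.or_eq_true, Bool.not_eq_true', beq_eq_false_iff_ne,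
    beq_iff_eq] at h
  tauto

theorem aff_congr {f g : Fr} (h : cons f g = true) (h' : cons g f = true) {p : E2}
    (hf : p ∈ sq f.c) (hg : p ∈ sq g.c) : aff f p = aff g p := by
  obtain ⟨a0, a1, a2, a3, a4⟩ := cons_spec h
  obtain ⟨b0, b1, b2, b3, b4⟩ := cons_spec h'
  obtain ⟨hx, hy⟩ := near hf hg
  obtain ⟨f1, f2, f3, f4⟩ := hf
  obtain ⟨g1, g2, g3, g4⟩ := hg
  rcases hx with hx | hx | hx <;> rcases hy with hy | hy | hy
  · -- (-1,-1)
    have hc : f.c = (g.c.1 + 1, g.c.2 + 1) := Prod.ext (by simp only; omega) (by simp only; omega)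
    have ho := b3 hc
    rw [hx] at g2; rw [hy] at g4
    push_cast at g2 g4
    ext i
    have e := congrArg (fun t => ((T3.co t i : ℤ) : ℝ)) ho
    simp only [co_addT, Int.cast_add] at e
    simp only [aff_apply, hx, hy]
    push_cast
    have p0 : p 0 = f.c.1 := by linarith
    have p1 : p 1 = f.c.2 := by linarith
    rw [p0, p1, e]; ring
  · -- (-1,0)
    have hc : f.c = (g.c.1 + 1, g.c.2) := Prod.ext (by simp only; omega) (by simp only; omega)
    obtain ⟨hv, ho⟩ := b1 hc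
    rw [hx] at g2
    push_cast at g2
    ext i
    have e := congrArg (fun t => ((T3.co t i : ℤ) : ℝ)) ho
    simp only [co_addT, Int.cast_add] at e
    simp only [aff_apply, hx, hy, hv]
    push_cast
    have p0 : p 0 = f.c.1 := by linarith
    rw [p0, e]; ring
  · -- (-1,1)
    have hc : f.c = (g.c.1 + 1, g.c.2 - 1) := Prod.ext (by simp only; omega) (by simp only; omega)
    have ho := b4 hc
    rw [hx] at g2; rw [hy] at g3
    push_cast at g2 g3
    ext i
    have e := congrArg (fun t => ((T3.co t i : ℤ) : ℝ)) ho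
    simp only [co_addT, Int.cast_add] at e
    simp only [aff_apply, hx, hy]
    push_cast
    have p0 : p 0 = f.c.1 := by linarith
    have p1 : p 1 = f.c.2 + 1 := by linarith
    rw [p0, p1]; linear_combination e
  · -- (0,-1)
    have hc : f.c = (g.c.1, g.c.2 + 1) := Prod.ext (by simp only; omega) (by simp only; omega)
    obtain ⟨hv, ho⟩ := b2 hc
    rw [hy] at g4
    push_cast at g4
    ext i
    have e := congrArg (fun t => ((T3.co t i : ℤ) : ℝ)) ho
    simp only [co_addT, Int.cast_add] at e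
    simp only [aff_apply, hx, hy, hv]
    push_cast
    have p1 : p 1 = f.c.2 := by linarith
    rw [p1, e]; ring
  · -- (0,0)
    have hc : g.c = f.c := Prod.ext hx hy
    rw [a0 hc]
  · -- (0,1)
    have hc : g.c = (f.c.1, f.c.2 + 1) := Prod.ext (by simp only; omega) (by simp only; omega)
    obtain ⟨hv, ho⟩ := a2 hc
    rw [hy] at g3
    push_cast at g3
    ext i
    have e := congrArg (fun t => ((T3.co t i : ℤ) : ℝ)) ho
    simp only [co_addT, Int.cast_add] at e
    simp only [aff_apply, hx, hy, hv]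
    push_cast
    have p1 : p 1 = f.c.2 + 1 := by linarith
    rw [p1, e]; ring
  · -- (1,-1)
    have hc : g.c = (f.c.1 + 1, f.c.2 - 1) := Prod.ext (by simp only; omega) (by simp only; omega)
    have ho := a4 hc
    rw [hx] at g1; rw [hy] at g4
    push_cast at g1 g4
    ext i
    have e := congrArg (fun t => ((T3.co t i : ℤ) : ℝ)) ho
    simp only [co_addT, Int.cast_add] at e
    simp only [aff_apply, hx, hy]
    push_cast
    have p0 : p 0 = f.c.1 + 1 := by linarith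
    have p1 : p 1 = f.c.2 := by linarith
    rw [p0, p1]; linear_combination -e
  · -- (1,0)
    have hc : g.c = (f.c.1 + 1, f.c.2) := Prod.ext (by simp only; omega) (by simp only; omega)
    obtain ⟨hv, ho⟩ := a1 hc
    rw [hx] at g1
    push_cast at g1
    ext i
    have e := congrArg (fun t => ((T3.co t i : ℤ) : ℝ)) ho
    simp only [co_addT, Int.cast_add] at e
    simp only [aff_apply, hx, hy, hv]
    push_cast
    have p0 : p 0 = f.c.1 + 1 := by linarith
    rw [p0, e]; ring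
  · -- (1,1)
    have hc : g.c = (f.c.1 + 1, f.c.2 + 1) := Prod.ext (by simp only; omega) (by simp only; omega)
    have ho := a3 hc
    rw [hx] at g1; rw [hy] at g3
    push_cast at g1 g3
    ext i
    have e := congrArg (fun t => ((T3.co t i : ℤ) : ℝ)) ho
    simp only [co_addT, Int.cast_add] at e
    simp only [aff_apply, hx, hy]
    push_cast
    have p0 : p 0 = f.c.1 + 1 := by linarith
    have p1 : p 1 = f.c.2 + 1 := by linarith
    rw [p0, p1, e]; ring

/-! ### keys of points -/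

noncomputable def kap (x : ℝ) : ℤ := if x = ⌊x⌋ then 2 * ⌊x⌋ else 2 * ⌊x⌋ + 1

theorem kap_int (o : ℤ) : kap o = 2 * o := by simp [kap]

theorem kap_pos (o : ℤ) {a : ℝ} (h0 : 0 < a) (h1 : a < 1) : kap (o + a) = 2 * o + 1 := by
  have hf : ⌊(o : ℝ) + a⌋ = o := by
    rw [Int.floor_eq_iff]; constructor <;> linarith
  have hne : (o : ℝ) + a ≠ ((o : ℤ) : ℝ) := by intro h; linarith
  rw [kap, hf, if_neg hne]

theorem kap_neg (o : ℤ) {a : ℝ} (h0 : 0 < a) (h1 : a < 1) : kap (o - a) = 2 * o - 1 := by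
  have : (o : ℝ) - a = ((o - 1 : ℤ) : ℝ) + (1 - a) := by push_cast; ring
  rw [this, kap_pos (o - 1) (by linarith) (by linarith)]; ring

noncomputable def kapT (w : E3) : T3 := (kap (w 0), kap (w 1), kap (w 2))

theorem kapT_co (w : E3) (i : Fin 3) : (kapT w).co i = kap (w i) := by
  fin_cases i <;> rfl

theorem kapT_aff {f : Fr} (h : okFrame f = true) {p : E2} (a0 : 0 ≤ p 0 - f.c.1)
    (a1 : p 0 - f.c.1 < 1) (b0 : 0 ≤ p 1 - f.c.2) (b1 : p 1 - f.c.2 < 1) :
    (p 0 - f.c.1 ≠ 0 → p 1 - f.c.2 ≠ 0 → kapT (aff f p) = addT (addT (addT f.o f.o) f.u) f.v) ∧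
    (p 0 - f.c.1 = 0 → p 1 - f.c.2 ≠ 0 → kapT (aff f p) = addT (addT f.o f.o) f.v) ∧
    (p 0 - f.c.1 ≠ 0 → p 1 - f.c.2 = 0 → kapT (aff f p) = addT (addT f.o f.o) f.u) ∧
    (p 0 - f.c.1 = 0 → p 1 - f.c.2 = 0 → kapT (aff f p) = addT f.o f.o) := by
  obtain ⟨hco, -⟩ := okFrame_co h
  refine ⟨fun ha hb => ?_, fun ha hb => ?_, fun ha hb => ?_, fun ha hb => ?_⟩
  · have ha' : 0 < p 0 - f.c.1 := lt_of_le_of_ne a0 (Ne.symm ha)
    have hb' : 0 < p 1 - f.c.2 := lt_of_le_of_ne b0 (Ne.symm hb)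
    refine T3.ext' fun i => ?_
    rw [kapT_co, aff_apply]
    simp only [co_addT]
    rcases hco i with ⟨h1, h2⟩ | ⟨h1 | h1, h2⟩ | ⟨h1, h2 | h2⟩
    · simp only [h1, h2, Int.cast_zero, mul_zero, add_zero]
      rw [kap_int]; ring
    · simp only [h1, h2, Int.cast_zero, mul_zero, add_zero, Int.cast_one, mul_one]
      rw [kap_pos _ ha' a1]; ring
    · simp only [h1, h2, Int.cast_zero, mul_zero, add_zero, Int.cast_neg, Int.cast_one, mul_neg,
        mul_one, ← sub_eq_add_neg]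
      rw [kap_neg _ ha' a1]; ring
    · simp only [h1, h2, Int.cast_zero, mul_zero, add_zero, Int.cast_one, mul_one]
      rw [kap_pos _ hb' b1]; ring
    · simp only [h1, h2, Int.cast_zero, mul_zero, add_zero, Int.cast_neg, Int.cast_one, mul_neg,
        mul_one, ← sub_eq_add_neg]
      rw [kap_neg _ hb' b1]; ring
  · have hb' : 0 < p 1 - f.c.2 := lt_of_le_of_ne b0 (Ne.symm hb)
    refine T3.ext' fun i => ?_
    rw [kapT_co, aff_apply, ha]
    simp only [co_addT, zero_mul, add_zero]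
    rcases hco i with ⟨h1, h2⟩ | ⟨h1 | h1, h2⟩ | ⟨h1, h2 | h2⟩
    · simp only [h2, Int.cast_zero, mul_zero, add_zero]
      rw [kap_int]; ring
    · simp only [h2, Int.cast_zero, mul_zero, add_zero]
      rw [kap_int]; ring
    · simp only [h2, Int.cast_zero, mul_zero, add_zero]
      rw [kap_int]; ring
    · simp only [h2, Int.cast_one, mul_one]
      rw [kap_pos _ hb' b1]; ring
    · simp only [h2, Int.cast_neg, Int.cast_one, mul_neg, mul_one, ← sub_eq_add_neg]
      rw [kap_neg _ hb' b1]; ring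
  · have ha' : 0 < p 0 - f.c.1 := lt_of_le_of_ne a0 (Ne.symm ha)
    refine T3.ext' fun i => ?_
    rw [kapT_co, aff_apply, hb]
    simp only [co_addT, zero_mul, add_zero]
    rcases hco i with ⟨h1, h2⟩ | ⟨h1 | h1, h2⟩ | ⟨h1, h2 | h2⟩
    · simp only [h1, Int.cast_zero, mul_zero, add_zero]
      rw [kap_int]; ring
    · simp only [h1, Int.cast_one, mul_one]
      rw [kap_pos _ ha' a1]; ring
    · simp only [h1, Int.cast_neg, Int.cast_one, mul_neg, mul_one, ← sub_eq_add_neg]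
      rw [kap_neg _ ha' a1]; ring
    · simp only [h1, Int.cast_zero, mul_zero, add_zero]
      rw [kap_int]; ring
    · simp only [h1, Int.cast_zero, mul_zero, add_zero]
      rw [kap_int]; ring
  · refine T3.ext' fun i => ?_
    rw [kapT_co, aff_apply, ha, hb]
    simp only [co_addT, zero_mul, add_zero]
    rw [kap_int]; ring

end Q139.Net
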