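import Pool.Agent.Q139.Net.Fold

/-!
Soundness of the folding certificate, part 2.
-/

open Set Filter Topology

namespace Q139.Net

/-- pushing an interior point in a direction -/
theorem interior_push {P : Finset Cell} {p : E2} (hp : p ∈ interior (region P)) (s t : ℝ)
    {δ : ℝ} (hδ : 0 < δ) : ∃ ε, 0 < ε ∧ ε < δ ∧ ∃ c ∈ P, (c.1 : ℝ) ≤ p 0 + ε * s ∧
      p 0 + ε * s ≤ c.1 + 1 ∧ (c.2 : ℝ) ≤ p 1 + ε * t ∧ p 1 + ε * t ≤ c.2 + 1 := by
  set γ : ℝ → E2 := fun ε => WithLp.toLp 2 ![p 0 + ε * s, p 1 + ε * t] with hγ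
  have hc : Continuous γ := by
    refine (PiLp.continuous_toLp 2 _).comp (continuous_pi fun i => ?_)
    fin_cases i
    · show Continuous fun ε : ℝ => p 0 + ε * s
      fun_prop
    · show Continuous fun ε : ℝ => p 1 + ε * t
      fun_prop
  have h0 : γ 0 = p := by
    ext i
    fin_cases i
    · show p 0 + 0 * s = p 0
      ring
    · show p 1 + 0 * t = p 1
      ring
  have hev : ∀ᶠ ε in 𝓝 (0 : ℝ), γ ε ∈ interior (region P) := by
    refine hc.continuousAt.eventually_mem ?_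
    rw [h0]
    exact isOpen_interior.mem_nhds hp
  have hev' : ∀ᶠ ε in 𝓝[>] (0 : ℝ), γ ε ∈ interior (region P) := hev.filter_mono nhdsWithin_le_nhds
  have hio : ∀ᶠ ε in 𝓝[>] (0 : ℝ), ε ∈ Ioo 0 δ := Ioo_mem_nhdsGT hδ
  obtain ⟨ε, h1, h2⟩ := (hev'.and hio).exists
  refine ⟨ε, h2.1, h2.2, ?_⟩
  have h3 := interior_subset h1
  simp only [region, mem_iUnion] at h3
  obtain ⟨c, hcP, hc'⟩ := h3
  exact ⟨c, hcP, hc'.1, hc'.2.1, hc'.2.2.1, hc'.2.2.2⟩

theorem int_of_real_lt {a b : ℤ} (h : (a : ℝ) < b + 1) : a ≤ b := by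
  have : (a : ℝ) < ((b + 1 : ℤ) : ℝ) := by push_cast; exact h
  have := Int.cast_lt.1 this
  omega

theorem interior_cell {P : Finset Cell} {p : E2} (hp : p ∈ interior (region P)) (x y : ℤ)
    (hx0 : 0 ≤ p 0 - x) (hx1 : p 0 - x < 1) (hy0 : 0 ≤ p 1 - y) (hy1 : p 1 - y < 1) :
    (x, y) ∈ P ∧ (p 0 - x = 0 → (x - 1, y) ∈ P) ∧ (p 1 - y = 0 → (x, y - 1) ∈ P) ∧
      (p 0 - x = 0 → p 1 - y = 0 → (x - 1, y - 1) ∈ P) := by
  have hδ : 0 < min (1 - (p 0 - x)) (1 - (p 1 - y)) := lt_min (by linarith) (by linarith)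
  refine ⟨?_, fun ha => ?_, fun hb => ?_, fun ha hb => ?_⟩
  · obtain ⟨ε, e0, e1, c, hc, c1, c2, c3, c4⟩ := interior_push hp 1 1 hδ
    have e2 := lt_of_lt_of_le e1 (min_le_left _ _)
    have e3 := lt_of_lt_of_le e1 (min_le_right _ _)
    have h1 : c.1 = x := le_antisymm (int_of_real_lt (by linarith)) (int_of_real_lt (by linarith))
    have h2 : c.2 = y := le_antisymm (int_of_real_lt (by linarith)) (int_of_real_lt (by linarith))
    rw [← h1, ← h2]; exact hc
  · obtain ⟨ε, e0, e1, c, hc, c1, c2, c3, c4⟩ := interior_push hp (-1) 1 hδ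
    have e2 := lt_of_lt_of_le e1 (min_le_left _ _)
    have e3 := lt_of_lt_of_le e1 (min_le_right _ _)
    have h1 : c.1 = x - 1 := le_antisymm (int_of_real_lt (by push_cast; linarith))
      (int_of_real_lt (by push_cast; linarith))
    have h2 : c.2 = y := le_antisymm (int_of_real_lt (by linarith)) (int_of_real_lt (by linarith))
    rw [← h1, ← h2]; exact hc
  · obtain ⟨ε, e0, e1, c, hc, c1, c2, c3, c4⟩ := interior_push hp 1 (-1) hδ
    have e2 := lt_of_lt_of_le e1 (min_le_left _ _)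
    have e3 := lt_of_lt_of_le e1 (min_le_right _ _)
    have h1 : c.1 = x := le_antisymm (int_of_real_lt (by linarith)) (int_of_real_lt (by linarith))
    have h2 : c.2 = y - 1 := le_antisymm (int_of_real_lt (by push_cast; linarith))
      (int_of_real_lt (by push_cast; linarith))
    rw [← h1, ← h2]; exact hc
  · obtain ⟨ε, e0, e1, c, hc, c1, c2, c3, c4⟩ := interior_push hp (-1) (-1) hδ
    have e2 := lt_of_lt_of_le e1 (min_le_left _ _)
    have e3 := lt_of_lt_of_le e1 (min_le_right _ _)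
    have h1 : c.1 = x - 1 := le_antisymm (int_of_real_lt (by push_cast; linarith))
      (int_of_real_lt (by push_cast; linarith))
    have h2 : c.2 = y - 1 := le_antisymm (int_of_real_lt (by push_cast; linarith))
      (int_of_real_lt (by push_cast; linarith))
    rw [← h1, ← h2]; exact hc

theorem has_iff {L : List Fr} {c : Cell} : has L c = true ↔ c ∈ cells L := by
  simp only [has, List.any_eq_true, beq_iff_eq, mem_cells]

/-- every interior point lies half-openly in a frame's cell, with its key in the list of keys -/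
theorem interior_frame {L : List Fr} (hok : ∀ f ∈ L, okFrame f = true) {p : E2}
    (hp : p ∈ interior (region (cells L))) :
    ∃ f ∈ L, p ∈ sq f.c ∧ kapT (aff f p) ∈ keys L f := by
  set x := ⌊p 0⌋ with hx
  set y := ⌊p 1⌋ with hy
  have hx0 : 0 ≤ p 0 - x := by have := Int.floor_le (p 0); rw [hx]; linarith
  have hx1 : p 0 - x < 1 := by have := Int.lt_floor_add_one (p 0); rw [hx]; linarith
  have hy0 : 0 ≤ p 1 - y := by have := Int.floor_le (p 1); rw [hy]; linarith
  have hy1 : p 1 - y < 1 := by have := Int.lt_floor_add_one (p 1); rw [hy]; linarith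
  obtain ⟨i1, i2, i3, i4⟩ := interior_cell hp x y hx0 hx1 hy0 hy1
  obtain ⟨f, hf, hfc⟩ := mem_cells.1 i1
  have e1 : f.c.1 = x := by rw [hfc]
  have e2 : f.c.2 = y := by rw [hfc]
  refine ⟨f, hf, ⟨?_, ?_, ?_, ?_⟩, ?_⟩
  · rw [e1]; linarith
  · rw [e1]; linarith
  · rw [e2]; linarith
  · rw [e2]; linarith
  · rw [← e1] at hx0 hx1 i2 i3 i4
    rw [← e2] at hy0 hy1 i2 i3 i4
    obtain ⟨k1, k2, k3, k4⟩ := kapT_aff (hok f hf) hx0 hx1 hy0 hy1
    by_cases ha : p 0 - f.c.1 = 0 <;> by_cases hb : p 1 - f.c.2 = 0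
    · rw [k4 ha hb]
      have l := has_iff.2 (i2 ha)
      have b := has_iff.2 (i3 hb)
      have d := has_iff.2 (i4 ha hb)
      simp [keys, l, b, d]
    · rw [k2 ha hb]
      have l := has_iff.2 (i2 ha)
      simp [keys, l]
    · rw [k3 ha hb]
      have b := has_iff.2 (i3 hb)
      simp [keys, b]
    · rw [k1 ha hb]
      simp [keys]

theorem mem_surfKeys {m : ℕ} {k : T3} : k ∈ surfKeys m ↔
    ∃ i, (k.co i = 0 ∨ k.co i = 2 * m) ∧ ∀ j, j ≠ i → ∃ t : ℕ, t < m ∧ k.co j = 2 * t + 1 := by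
  obtain ⟨k0, k1, k2⟩ := k
  simp only [surfKeys, List.mem_flatMap, List.mem_range, List.mem_cons, List.not_mem_nil, or_false,
    Prod.mk.injEq]
  constructor
  · rintro ⟨a, ha, b, hb, h | h | h | h | h | h⟩ <;> obtain ⟨h0, h1, h2⟩ := h <;> subst h0 h1 h2
    · refine ⟨0, Or.inl rfl, fun j hj => ?_⟩
      fin_cases j
      · exact absurd rfl hj
      · exact ⟨a, ha, rfl⟩
      · exact ⟨b, hb, rfl⟩
    · refine ⟨0, Or.inr rfl, fun j hj => ?_⟩
      fin_cases j
      · exact absurd rfl hj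
      · exact ⟨a, ha, rfl⟩
      · exact ⟨b, hb, rfl⟩
    · refine ⟨1, Or.inl rfl, fun j hj => ?_⟩
      fin_cases j
      · exact ⟨a, ha, rfl⟩
      · exact absurd rfl hj
      · exact ⟨b, hb, rfl⟩
    · refine ⟨1, Or.inr rfl, fun j hj => ?_⟩
      fin_cases j
      · exact ⟨a, ha, rfl⟩
      · exact absurd rfl hj
      · exact ⟨b, hb, rfl⟩
    · refine ⟨2, Or.inl rfl, fun j hj => ?_⟩
      fin_cases j
      · exact ⟨a, ha, rfl⟩
      · exact ⟨b, hb, rfl⟩
      · exact absurd rfl hj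
    · refine ⟨2, Or.inr rfl, fun j hj => ?_⟩
      fin_cases j
      · exact ⟨a, ha, rfl⟩
      · exact ⟨b, hb, rfl⟩
      · exact absurd rfl hj
  · rintro ⟨i, hi, hj⟩
    fin_cases i
    · obtain ⟨a, ha, ha'⟩ := hj 1 (by decide)
      obtain ⟨b, hb, hb'⟩ := hj 2 (by decide)
      refine ⟨a, ha, b, hb, ?_⟩
      change k1 = _ at ha'
      change k2 = _ at hb'
      change k0 = _ ∨ k0 = _ at hi
      subst ha' hb'
      rcases hi with rfl | rfl
      · left; exact ⟨rfl, rfl, rfl⟩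
      · right; left; exact ⟨rfl, rfl, rfl⟩
    · obtain ⟨a, ha, ha'⟩ := hj 0 (by decide)
      obtain ⟨b, hb, hb'⟩ := hj 2 (by decide)
      refine ⟨a, ha, b, hb, ?_⟩
      change k0 = _ at ha'
      change k2 = _ at hb'
      change k1 = _ ∨ k1 = _ at hi
      subst ha' hb'
      rcases hi with rfl | rfl
      · right; right; left; exact ⟨rfl, rfl, rfl⟩
      · right; right; right; left; exact ⟨rfl, rfl, rfl⟩
    · obtain ⟨a, ha, ha'⟩ := hj 0 (by decide)
      obtain ⟨b, hb, hb'⟩ := hj 1 (by decide)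
      refine ⟨a, ha, b, hb, ?_⟩
      change k0 = _ at ha'
      change k1 = _ at hb'
      change k2 = _ ∨ k2 = _ at hi
      subst ha' hb'
      rcases hi with rfl | rfl
      · right; right; right; right; left; exact ⟨rfl, rfl, rfl⟩
      · right; right; right; right; right; exact ⟨rfl, rfl, rfl⟩

theorem keyOpen_co (f : Fr) (i : Fin 3) :
    (keyOpen f).co i = 2 * f.o.co i + f.u.co i + f.v.co i := by
  simp only [keyOpen, co_addT]; ring

theorem fin3_eq : ∀ (a b i j : Fin 3), a ≠ b → i ≠ a → i ≠ b → j ≠ a → j ≠ b → j = i := by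
  decide

/-- each open cell goes to an open cell of the surface -/
theorem aff_mem_surface {m : ℕ} {f : Fr} (h : okFrame f = true) (hk : keyOpen f ∈ surfKeys m)
    {p : E2} (hp : p ∈ sq f.c) : aff f p ∈ surface m := by
  obtain ⟨-, a, b, hab, ha, ha', hb, hb'⟩ := okFrame_co h
  obtain ⟨i, hi, hj⟩ := mem_surfKeys.1 hk
  obtain ⟨p1, p2, p3, p4⟩ := hp
  have hva : f.v.co a = 0 := hb' a hab
  have hub : f.u.co b = 0 := ha' b hab.symm
  have hia : i ≠ a := by
    rintro rfl
    rw [keyOpen_co, hva] at hi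
    omega
  have hib : i ≠ b := by
    rintro rfl
    rw [keyOpen_co, hub] at hi
    omega
  have hui : f.u.co i = 0 := ha' i hia
  have hvi : f.v.co i = 0 := hb' i hib
  obtain ⟨s, hs, hs'⟩ := hj a hia.symm
  obtain ⟨t, ht, ht'⟩ := hj b hib.symm
  rw [keyOpen_co] at hi hs' ht'
  rw [hva] at hs'
  rw [hub] at ht'
  rw [hui, hvi] at hi
  have hsm : (s : ℝ) + 1 ≤ m := by exact_mod_cast hs
  have htm : (t : ℝ) + 1 ≤ m := by exact_mod_cast ht
  have hs0 : (0 : ℝ) ≤ s := Nat.cast_nonneg s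
  have ht0 : (0 : ℝ) ≤ t := Nat.cast_nonneg t
  have hm0 : (0 : ℝ) ≤ m := Nat.cast_nonneg m
  have wi : aff f p i = 0 ∨ aff f p i = m := by
    rw [aff_apply, hui, hvi]
    rcases hi with hi | hi
    · left
      have : f.o.co i = 0 := by omega
      rw [this]; simp
    · right
      have : f.o.co i = m := by omega
      rw [this]; simp
  have wa : 0 ≤ aff f p a ∧ aff f p a ≤ m := by
    rw [aff_apply, hva]
    rcases ha with ha | ha
    · have e : f.o.co a = s := by omega
      rw [ha, e]; push_cast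
      constructor <;> linarith
    · have e : f.o.co a = s + 1 := by omega
      rw [ha, e]; push_cast
      constructor <;> linarith
  have wb : 0 ≤ aff f p b ∧ aff f p b ≤ m := by
    rw [aff_apply, hub]
    rcases hb with hb | hb
    · have e : f.o.co b = t := by omega
      rw [hb, e]; push_cast
      constructor <;> linarith
    · have e : f.o.co b = t + 1 := by omega
      rw [hb, e]; push_cast
      constructor <;> linarith
  refine ⟨fun j => ?_, i, wi⟩
  by_cases hja : j = a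
  · rw [hja]; exact wa
  · by_cases hjb : j = b
    · rw [hjb]; exact wb
    · have : j = i := fin3_eq a b i j hab hia hib hja hjb
      rw [this]
      rcases wi with wi | wi <;> rw [wi] <;> constructor <;> linarith

theorem exists_cell_coord {m : ℕ} (hm : 0 < m) {x : ℝ} (h0 : 0 ≤ x) (h1 : x ≤ m) :
    ∃ t : ℕ, t < m ∧ (t : ℝ) ≤ x ∧ x ≤ t + 1 := by
  by_cases h : ⌊x⌋₊ < m
  · exact ⟨⌊x⌋₊, h, Nat.floor_le h0, (Nat.lt_floor_add_one x).le⟩
  · refine ⟨m - 1, by omega, ?_, ?_⟩
    · have : (m : ℝ) ≤ x := by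
        have := Nat.floor_le h0
        have h' : (m : ℝ) ≤ (⌊x⌋₊ : ℝ) := by exact_mod_cast not_lt.1 h
        linarith
      rw [Nat.cast_sub (by omega)]; push_cast; linarith
    · rw [Nat.cast_sub (by omega)]; push_cast; linarith

theorem exists_of_surface {m : ℕ} (hm : 0 < m) {L : List Fr} (hok : ∀ f ∈ L, okFrame f = true)
    (hs : ∀ k ∈ surfKeys m, ∃ f ∈ L, keyOpen f = k) {w : E3} (hw : w ∈ surface (m : ℝ)) :
    ∃ f ∈ L, ∃ p ∈ sq f.c, aff f p = w := by
  obtain ⟨hb, i, hi⟩ := hw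
  choose t ht1 ht2 ht3 using fun j => exists_cell_coord hm (hb j).1 (hb j).2
  -- the key
  obtain ⟨e, he, he'⟩ : ∃ e : ℤ, (e = 0 ∨ e = 2 * m) ∧ (e : ℝ) = 2 * w i := by
    rcases hi with hi | hi
    · exact ⟨0, Or.inl rfl, by rw [hi]; simp⟩
    · exact ⟨2 * m, Or.inr rfl, by rw [hi]; push_cast; ring⟩
  set g : Fin 3 → ℤ := fun j => if j = i then e else 2 * (t j : ℤ) + 1 with hg
  have hco : ∀ j, T3.co (g 0, g 1, g 2) j = g j := by
    intro j; fin_cases j <;> rfl
  have hkey : ((g 0, g 1, g 2) : T3) ∈ surfKeys m := by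
    rw [mem_surfKeys]
    refine ⟨i, ?_, fun j hj => ⟨t j, ht1 j, ?_⟩⟩
    · rw [hco, hg]; simpa using he
    · rw [hco, hg]; simp [hj]
  obtain ⟨f, hf, hfk⟩ := hs _ hkey
  have hk : ∀ j, 2 * f.o.co j + f.u.co j + f.v.co j = g j := by
    intro j; rw [← keyOpen_co, hfk, hco]
  obtain ⟨-, a, b, hab, ha, ha', hb1, hb'⟩ := okFrame_co (hok f hf)
  have hva : f.v.co a = 0 := hb' a hab
  have hub : f.u.co b = 0 := ha' b hab.symm
  have hia : i ≠ a := by
    rintro rfl
    have := hk i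
    rw [hva, hg] at this
    simp only [if_true] at this
    omega
  have hib : i ≠ b := by
    rintro rfl
    have := hk i
    rw [hub, hg] at this
    simp only [if_true] at this
    omega
  have hui : f.u.co i = 0 := ha' i hia
  have hvi : f.v.co i = 0 := hb' i hib
  have ka := hk a
  have kb := hk b
  have ki := hk i
  rw [hva, hg] at ka
  rw [hub, hg] at kb
  rw [hui, hvi, hg] at ki
  simp only [if_neg hia.symm, if_neg hib.symm, if_true] at ka kb ki
  -- the parameters
  have hA : ∃ α : ℝ, 0 ≤ α ∧ α ≤ 1 ∧ (f.o.co a : ℝ) + α * f.u.co a = w a := by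
    have h2 := ht2 a
    have h3 := ht3 a
    rcases ha with ha | ha
    · have e : f.o.co a = t a := by omega
      refine ⟨w a - t a, by linarith, by linarith, ?_⟩
      rw [e, ha]; push_cast; ring
    · have e : f.o.co a = t a + 1 := by omega
      refine ⟨t a + 1 - w a, by linarith, by linarith, ?_⟩
      rw [e, ha]; push_cast; ring
  have hB : ∃ β : ℝ, 0 ≤ β ∧ β ≤ 1 ∧ (f.o.co b : ℝ) + β * f.v.co b = w b := by
    have h2 := ht2 b
    have h3 := ht3 b
    rcases hb1 with hb1 | hb1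
    · have e : f.o.co b = t b := by omega
      refine ⟨w b - t b, by linarith, by linarith, ?_⟩
      rw [e, hb1]; push_cast; ring
    · have e : f.o.co b = t b + 1 := by omega
      refine ⟨t b + 1 - w b, by linarith, by linarith, ?_⟩
      rw [e, hb1]; push_cast; ring
  obtain ⟨α, α0, α1, hα⟩ := hA
  obtain ⟨β, β0, β1, hβ⟩ := hB
  refine ⟨f, hf, WithLp.toLp 2 ![f.c.1 + α, f.c.2 + β], ?_, ?_⟩
  · refine ⟨?_, ?_, ?_, ?_⟩
    · show (f.c.1 : ℝ) ≤ f.c.1 + α
      linarith
    · show (f.c.1 : ℝ) + α ≤ f.c.1 + 1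
      linarith
    · show (f.c.2 : ℝ) ≤ f.c.2 + β
      linarith
    · show (f.c.2 : ℝ) + β ≤ f.c.2 + 1
      linarith
  · ext j
    rw [aff_apply]
    show (f.o.co j : ℝ) + (f.c.1 + α - f.c.1) * f.u.co j + (f.c.2 + β - f.c.2) * f.v.co j = w j
    rw [add_sub_cancel_left, add_sub_cancel_left]
    by_cases hja : j = a
    · rw [hja, hva, ← hα]; simp
    · by_cases hjb : j = b
      · rw [hjb, hub, ← hβ]; simp
      · have hji : j = i := fin3_eq a b i j hab hia hib hja hjb
        rw [hji, hui, hvi]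
        have : (2 * f.o.co i : ℝ) = 2 * w i := by rw [← he', ← ki]; push_cast; ring
        simp only [Int.cast_zero, mul_zero, add_zero]
        linarith

theorem isCompact_sq (c : Cell) : IsCompact (sq c) := by
  have : sq c = (EuclideanSpace.equiv (Fin 2) ℝ) ⁻¹'
      (Set.pi univ fun i => Icc (![(c.1 : ℝ), c.2] i) (![(c.1 : ℝ) + 1, c.2 + 1] i)) := by
    ext p
    simp only [sq, mem_preimage, Set.mem_pi, mem_univ, true_imp_iff, mem_Icc, Set.mem_ofPred_eq]
    constructor
    · rintro ⟨h1, h2, h3, h4⟩ i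
      fin_cases i
      · exact ⟨h1, h2⟩
      · exact ⟨h3, h4⟩
    · intro h
      exact ⟨(h 0).1, (h 0).2, (h 1).1, (h 1).2⟩
  rw [this]
  exact (EuclideanSpace.equiv (Fin 2) ℝ).toHomeomorph.isCompact_preimage.2
    (isCompact_univ_pi fun i => isCompact_Icc)

theorem convex_sq (c : Cell) : Convex ℝ (sq c) := by
  intro p hp q hq a b ha hb hab
  obtain ⟨p1, p2, p3, p4⟩ := hp
  obtain ⟨q1, q2, q3, q4⟩ := hq
  have e0 : (a • p + b • q) 0 = a * p 0 + b * q 0 := rfl
  have e1 : (a • p + b • q) 1 = a * p 1 + b * q 1 := rfl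
  have hb' : b = 1 - a := by linarith
  subst hb'
  refine ⟨?_, ?_, ?_, ?_⟩
  · rw [e0]; nlinarith
  · rw [e0]; nlinarith
  · rw [e1]; nlinarith
  · rw [e1]; nlinarith

/-- **Soundness of the folding certificate.** -/
theorem isNet_of_foldCheck {m : ℕ} (hm : 0 < m) {L : List Fr} (h : foldCheck m L = true) :
    IsNet (region (cells L)) m := by
  simp only [foldCheck, Bool.and_eq_true, List.all_eq_true, List.any_eq_true, List.contains_eq_mem,
    decide_eq_true_eq, beq_iff_eq, Bool.or_eq_true, Bool.not_eq_true'] at h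
  obtain ⟨⟨⟨⟨hok, hcons⟩, hsurf⟩, hsurj⟩, hkeys⟩ := h
  classical
  set φ : E2 → E3 := fun p => if hp : ∃ f ∈ L, p ∈ sq f.c then aff hp.choose p else 0 with hφ
  have hφe : ∀ f ∈ L, ∀ p ∈ sq f.c, φ p = aff f p := by
    intro f hf p hp
    have hex : ∃ f ∈ L, p ∈ sq f.c := ⟨f, hf, hp⟩
    have h1 : φ p = aff hex.choose p := by simp only [hφ, dif_pos hex]
    rw [h1]
    exact aff_congr (hcons _ hex.choose_spec.1 _ hf) (hcons _ hf _ hex.choose_spec.1)
      hex.choose_spec.2 hp
  have hreg : region (cells L) = ⋃ i : Fin L.length, sq (L.get i).c := by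
    ext p
    rw [mem_region, mem_iUnion]
    constructor
    · rintro ⟨f, hf, hp⟩
      obtain ⟨i, hi⟩ := List.get_of_mem hf
      exact ⟨i, by rw [hi]; exact hp⟩
    · rintro ⟨i, hp⟩
      exact ⟨L.get i, List.get_mem L i, hp⟩
  refine ⟨φ, ?_, ?_, ?_, L.length, fun i => sq (L.get i).c, ?_, hreg, ?_⟩
  · rw [hreg]
    refine LocallyFinite.continuousOn_iUnion (locallyFinite_of_finite _)
      (fun i => (isCompact_sq _).isClosed) fun i => ?_
    exact (continuous_aff (L.get i)).continuousOn.congr fun p hp => hφe _ (List.get_mem L i) p hp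
  · ext w
    constructor
    · rintro ⟨p, hp, rfl⟩
      obtain ⟨f, hf, hp⟩ := mem_region.1 hp
      rw [hφe f hf p hp]
      exact aff_mem_surface (hok f hf) (hsurf f hf) hp
    · intro hw
      obtain ⟨f, hf, p, hp, rfl⟩ := exists_of_surface hm hok hsurj hw
      exact ⟨p, mem_region.2 ⟨f, hf, hp⟩, hφe f hf p hp⟩
  · intro p hp q hq hpq
    obtain ⟨f, hf, hpf, hkf⟩ := interior_frame hok hp
    obtain ⟨g, hg, hqg, hkg⟩ := interior_frame hok hq
    rw [hφe f hf p hpf, hφe g hg q hqg] at hpq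
    have hfg : f = g := by
      rcases hkeys f hf g hg with h | h
      · exact h
      · exfalso
        have := h _ hkf
        rw [hpq] at this
        exact (decide_eq_false_iff_not.1 this) hkg
    subst hfg
    have := aff_dist (hok f hf) p q
    rw [hpq, dist_self] at this
    exact dist_eq_zero.1 this.symm
  · intro i
    exact ⟨isCompact_sq _, convex_sq _⟩
  · intro i x hx y hy
    rw [hφe _ (List.get_mem L i) x hx, hφe _ (List.get_mem L i) y hy]
    exact aff_dist (hok _ (List.get_mem L i)) x y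

end Q139.Net
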